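import Pool.Agent.Helper87.AxS.Main
import Pool.Agent.Helper87.Ax.Gram

/-!
Axes and extension of the base field.
-/

set_option linter.unusedSectionVars false

namespace AxJ

open Submodule TensorProduct

section crit

variable {F : Type*} [Field F] {A : Type*} [NonUnitalNonAssocCommRing A] [Module F A]
  [IsScalarTower F A A] [SMulCommClass F A A]

variable (F) in
/-- The part with eigenvalue 0. -/
def q0 (a x : A) : A := (2 : F) • (a * (a * x)) - (3 : F) • (a * x) + x

variable (F) in
/-- The part with eigenvalue 1/2. -/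
def qh (a x : A) : A := (4 : F) • (a * x) - (4 : F) • (a * (a * x))

variable (F) in
/-- The part with eigenvalue 1. -/
def q1 (a x : A) : A := (2 : F) • (a * (a * x)) - a * x

theorem q_sum (a x : A) : q1 F a x + q0 F a x + qh F a x = x := by
  unfold q0 qh q1
  module

theorem q0_add (a x y : A) : q0 F a (x + y) = q0 F a x + q0 F a y := by
  unfold q0
  simp only [mul_add, smul_add]
  module

theorem qh_add (a x y : A) : qh F a (x + y) = qh F a x + qh F a y := by
  unfold qh
  simp only [mul_add, smul_add]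
  module

theorem q1_add (a x y : A) : q1 F a (x + y) = q1 F a x + q1 F a y := by
  unfold q1
  simp only [mul_add, smul_add]
  module

theorem q0_zero (a : A) : q0 F a (0 : A) = 0 := by
  unfold q0
  simp

theorem qh_zero (a : A) : qh F a (0 : A) = 0 := by
  unfold qh
  simp

theorem q1_zero (a : A) : q1 F a (0 : A) = 0 := by
  unfold q1
  simp

theorem q0_smul (a : A) (c : F) (x : A) : q0 F a (c • x) = c • q0 F a x := by
  unfold q0
  simp only [mul_smul_comm]
  module

theorem qh_smul (a : A) (c : F) (x : A) : qh F a (c • x) = c • qh F a x := by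
  unfold qh
  simp only [mul_smul_comm]
  module

theorem q1_smul (a : A) (c : F) (x : A) : q1 F a (c • x) = c • q1 F a x := by
  unfold q1
  simp only [mul_smul_comm]
  module

/-- The axioms of an axis written as identities. -/
structure IsAx (a : A) : Prop where
  idem : a * a = a
  cub : ∀ x, a * q0 F a x = 0
  prim : ∀ x, ∃ c : F, q1 F a x = c • a
  zz : ∀ x y, a * (q0 F a x * q0 F a y) = 0
  zh : ∀ x y, (2 : F) • (a * (q0 F a x * qh F a y)) = q0 F a x * qh F a y
  hh : ∀ x y, a * (a * (qh F a x * qh F a y)) = a * (qh F a x * qh F a y)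

theorem ff_three (h2 : (2 : F) ≠ 0) {b x : A} (hx : b * x = (1 / 2 : F) • x) :
    qh F b x = x := by
  unfold qh
  rw [hx, mul_smul_comm, hx]
  match_scalars
  field_simp
  norm_num

theorem IsHalfAxis.isAx (h2 : (2 : F) ≠ 0) {a : A} (ha : IsHalfAxis F a) : IsAx (F := F) a := by
  have key : ∀ x : A, ∃ (c : F) (x0 xh : A), x = c • a + x0 + xh ∧ a * x0 = 0 ∧
      a * xh = (1 / 2 : F) • xh ∧ q0 F a x = x0 ∧ qh F a x = xh ∧ q1 F a x = c • a := by
    intro x
    obtain ⟨c, x0, xh, rfl, h0, hh⟩ := parts ha x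
    refine ⟨c, x0, xh, rfl, h0, hh, ?_, ?_, ?_⟩
    · unfold q0
      simp only [mul_add, mul_smul_comm, ha.idem, h0, hh, add_zero]
      match_scalars <;> field_simp <;> ring
    · unfold qh
      simp only [mul_add, mul_smul_comm, ha.idem, h0, hh, add_zero]
      match_scalars <;> field_simp <;> ring
    · unfold q1
      simp only [mul_add, mul_smul_comm, ha.idem, h0, hh, add_zero]
      match_scalars <;> field_simp <;> ring
  refine ⟨ha.idem, ?_, ?_, ?_, ?_, ?_⟩
  · intro x
    obtain ⟨c, x0, xh, _, h0, hh, e0, eh, e1⟩ := key x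
    rw [e0, h0]
  · intro x
    obtain ⟨c, x0, xh, _, h0, hh, e0, eh, e1⟩ := key x
    exact ⟨c, e1⟩
  · intro x y
    obtain ⟨c, x0, xh, _, h0, hh, e0, eh, e1⟩ := key x
    obtain ⟨d, y0, yh, _, k0, kh, f0, fh, f1⟩ := key y
    rw [e0, f0]
    exact mul_zz ha h0 k0
  · intro x y
    obtain ⟨c, x0, xh, _, h0, hh, e0, eh, e1⟩ := key x
    obtain ⟨d, y0, yh, _, k0, kh, f0, fh, f1⟩ := key y
    rw [e0, fh, mul_zh ha h0 kh, smul_smul]
    have : (2 : F) * (1 / 2) = 1 := by field_simp
    rw [this, one_smul]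
  · intro x y
    obtain ⟨c, x0, xh, _, h0, hh, e0, eh, e1⟩ := key x
    obtain ⟨d, y0, yh, _, k0, kh, f0, fh, f1⟩ := key y
    obtain ⟨w, w0, hw, hw0⟩ := mul_hh ha hh kh
    rw [eh, fh, hw]
    simp only [mul_add, mul_smul_comm, ha.idem, hw0, add_zero]

theorem IsAx.isHalfAxis (h2 : (2 : F) ≠ 0) {a : A} (ha : IsAx (F := F) a) :
    IsHalfAxis F a := by
  have c1 : ∀ x, q0 F a x ∈ eig F a 0 := by
    intro x
    rw [mem_eig, ha.cub, zero_smul]
  have c2 : ∀ x, qh F a x ∈ eig F a (1 / 2) := by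
    intro x
    rw [mem_eig]
    have h := ha.cub x
    unfold q0 at h
    simp only [mul_add, mul_sub, mul_smul_comm] at h
    unfold qh
    simp only [mul_sub, mul_smul_comm]
    have e : (4 : F) • (a * (a * x)) - (4 : F) • (a * (a * (a * x))) -
        (1 / 2 : F) • ((4 : F) • (a * x) - (4 : F) • (a * (a * x))) =
        (-2 : F) • ((2 : F) • (a * (a * (a * x))) - (3 : F) • (a * (a * x)) + a * x) := by
      match_scalars <;> field_simp <;> ring
    rw [h, smul_zero, sub_eq_zero] at e
    exact e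
  have c3 : ∀ x, q1 F a x ∈ span F {a} := by
    intro x
    obtain ⟨c, hc⟩ := ha.prim x
    rw [hc]
    exact smul_mem _ _ (mem_span_singleton_self a)
  have e1 : eig F a 1 = span F {a} := by
    apply le_antisymm
    · intro x hx
      rw [mem_eig, one_smul] at hx
      have h := c3 x
      unfold q1 at h
      rw [hx, hx] at h
      have : (2 : F) • x - x = x := by module
      rwa [this] at h
    · rw [span_le]
      rintro _ rfl
      rw [SetLike.mem_coe, mem_eig, ha.idem, one_smul]
  have z0 : ∀ x, a * x = 0 → q0 F a x = x := by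
    intro x hx
    unfold q0
    rw [hx]
    simp
  have zh : ∀ x, a * x = (1 / 2 : F) • x → qh F a x = x := fun x hx => ff_three h2 hx
  have pp : ∀ x ∈ eig F a 1 ⊔ eig F a 0, ∃ (c : F) (x0 : A), a * x0 = 0 ∧ x = c • a + x0 := by
    intro x hx
    obtain ⟨x1, hx1, x0, hx0, rfl⟩ := mem_sup.1 hx
    rw [e1] at hx1
    obtain ⟨c, rfl⟩ := mem_span_singleton.1 hx1
    rw [mem_eig, zero_smul] at hx0
    exact ⟨c, x0, hx0, rfl⟩
  have am : a ∈ eig F a 1 ⊔ eig F a 0 :=
    le_sup_left (a := eig F a 1) (by rw [mem_eig, ha.idem, one_smul])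
  refine ⟨ha.idem, e1, ?_, ?_, ?_, ?_, ?_⟩
  · rw [eq_top_iff]
    intro x _
    rw [← q_sum (F := F) a x]
    refine add_mem (mem_sup_left (add_mem (mem_sup_left ?_) (mem_sup_right (c1 x))))
      (mem_sup_right (c2 x))
    rw [e1]
    exact c3 x
  · intro x hx y hy
    obtain ⟨c, x0, h0, rfl⟩ := pp x hx
    obtain ⟨d, y0, k0, rfl⟩ := pp y hy
    have h0' : x0 * a = 0 := by rw [mul_comm]; exact h0
    have h := ha.zz x0 y0
    rw [z0 x0 h0, z0 y0 k0] at h
    simp only [add_mul, mul_add, smul_mul_assoc, mul_smul_comm, ha.idem, h0', k0, smul_zero,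
      add_zero, zero_add]
    refine add_mem (smul_mem _ _ (smul_mem _ _ am)) (mem_sup_right ?_)
    rw [mem_eig, zero_smul]
    exact h
  · intro x hx y hy
    obtain ⟨c, x0, h0, rfl⟩ := pp x hx
    have hy' := mem_eig.1 hy
    have h := ha.zh x0 y
    rw [z0 x0 h0, zh y hy'] at h
    rw [add_mul, smul_mul_assoc, hy']
    refine add_mem (smul_mem _ _ (smul_mem _ _ hy)) ?_
    rw [mem_eig]
    rw [← h, smul_smul]
    have : (1 / 2 : F) * 2 = 1 := by field_simp
    rw [this, one_smul, h]
  · intro x hx y hy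
    have hx' := mem_eig.1 hx
    have hy' := mem_eig.1 hy
    have h := ha.hh x y
    rw [zh x hx', zh y hy'] at h
    have e : x * y = q1 F a (x * y) + q0 F a (x * y) := by
      have := q_sum (F := F) a (x * y)
      have h3 : qh F a (x * y) = 0 := by
        unfold qh
        rw [h]
        simp
      rw [h3, add_zero] at this
      exact this.symm
    rw [e]
    refine add_mem (mem_sup_left ?_) (mem_sup_right (c1 _))
    rw [e1]
    exact c3 _
  · intro x hx y hy
    have hx' := mem_eig.1 hx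
    have hy' := mem_eig.1 hy
    rw [zero_smul] at hx' hy'
    have h := ha.zz x y
    rw [z0 x hx', z0 y hy'] at h
    rw [mem_eig, zero_smul]
    exact h

end crit

section tens

variable {F : Type*} [Field F] {A : Type*} [NonUnitalNonAssocCommRing A] [Module F A]
  [IsScalarTower F A A] [SMulCommClass F A A] (K : Type*) [Field K] [Algebra F K]

instance tensComm : NonUnitalNonAssocCommRing (K ⊗[F] A) where
  toNonUnitalNonAssocRing := Algebra.TensorProduct.instNonUnitalNonAssocRing
  mul_comm := by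
    intro x y
    induction x using TensorProduct.induction_on with
    | zero => rw [zero_mul, mul_zero]
    | add x x' hx hx' => rw [add_mul, mul_add, hx, hx']
    | tmul k a =>
      induction y using TensorProduct.induction_on with
      | zero => rw [zero_mul, mul_zero]
      | add y y' hy hy' => rw [add_mul, mul_add, hy, hy']
      | tmul l b =>
        rw [Algebra.TensorProduct.tmul_mul_tmul, Algebra.TensorProduct.tmul_mul_tmul,
          mul_comm k l, mul_comm a b]

theorem tens_ind {P : K ⊗[F] A → Prop} (h : ∀ (k : K) (x : A), P (k • ((1 : K) ⊗ₜ[F] x)))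
    (hadd : ∀ x y, P x → P y → P (x + y)) (x : K ⊗[F] A) : P x := by
  induction x using TensorProduct.induction_on with
  | zero =>
    have := h 0 0
    rwa [zero_smul] at this
  | add x x' hx hx' => exact hadd _ _ hx hx'
  | tmul k a =>
    have := h k a
    rwa [TensorProduct.smul_tmul', smul_eq_mul, mul_one] at this

theorem one_mul_one (a b : A) : ((1 : K) ⊗ₜ[F] a) * ((1 : K) ⊗ₜ[F] b) = (1 : K) ⊗ₜ[F] (a * b) := by
  rw [Algebra.TensorProduct.tmul_mul_tmul, mul_one]

theorem nat_smul_one (n : ℕ) (b : A) : (n : K) • ((1 : K) ⊗ₜ[F] b) = (1 : K) ⊗ₜ[F] ((n : F) • b) := by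
  rw [TensorProduct.tmul_smul, TensorProduct.smul_tmul', TensorProduct.smul_tmul', smul_eq_mul,
    mul_one, Nat.cast_smul_eq_nsmul, nsmul_eq_mul, mul_one]

theorem alg_smul_one (c : F) (b : A) :
    (algebraMap F K c) • ((1 : K) ⊗ₜ[F] b) = (1 : K) ⊗ₜ[F] (c • b) := by
  rw [TensorProduct.tmul_smul, TensorProduct.smul_tmul', TensorProduct.smul_tmul', smul_eq_mul,
    mul_one, Algebra.smul_def, mul_one]

theorem smul_one2 (b : A) : (2 : K) • ((1 : K) ⊗ₜ[F] b) = (1 : K) ⊗ₜ[F] ((2 : F) • b) := by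
  rw [← alg_smul_one, map_ofNat]

theorem smul_one3 (b : A) : (3 : K) • ((1 : K) ⊗ₜ[F] b) = (1 : K) ⊗ₜ[F] ((3 : F) • b) := by
  rw [← alg_smul_one, map_ofNat]

theorem smul_one4 (b : A) : (4 : K) • ((1 : K) ⊗ₜ[F] b) = (1 : K) ⊗ₜ[F] ((4 : F) • b) := by
  rw [← alg_smul_one, map_ofNat]

theorem q0_one (a x : A) : q0 K ((1 : K) ⊗ₜ[F] a) ((1 : K) ⊗ₜ[F] x) = (1 : K) ⊗ₜ[F] q0 F a x := by
  unfold q0
  simp only [one_mul_one, smul_one2, smul_one3, TensorProduct.tmul_add, TensorProduct.tmul_sub]

theorem qh_one (a x : A) : qh K ((1 : K) ⊗ₜ[F] a) ((1 : K) ⊗ₜ[F] x) = (1 : K) ⊗ₜ[F] qh F a x := by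
  unfold qh
  simp only [one_mul_one, smul_one4, TensorProduct.tmul_sub]

theorem q1_one (a x : A) : q1 K ((1 : K) ⊗ₜ[F] a) ((1 : K) ⊗ₜ[F] x) = (1 : K) ⊗ₜ[F] q1 F a x := by
  unfold q1
  simp only [one_mul_one, smul_one2, TensorProduct.tmul_sub]

theorem IsAx.ext {a : A} (ha : IsAx (F := F) a) : IsAx (F := K) ((1 : K) ⊗ₜ[F] a) := by
  refine ⟨?_, ?_, ?_, ?_, ?_, ?_⟩
  · rw [one_mul_one, ha.idem]
  · intro x
    induction x using tens_ind with
    | h k x => rw [q0_smul, q0_one, mul_smul_comm, one_mul_one, ha.cub, TensorProduct.tmul_zero,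
        smul_zero]
    | hadd x x' hx hx' => rw [q0_add, mul_add, hx, hx', add_zero]
  · intro x
    induction x using tens_ind with
    | h k x =>
      obtain ⟨c, hc⟩ := ha.prim x
      refine ⟨k * algebraMap F K c, ?_⟩
      rw [q1_smul, q1_one, hc, ← alg_smul_one, smul_smul]
    | hadd x x' hx hx' =>
      obtain ⟨c, hc⟩ := hx
      obtain ⟨d, hd⟩ := hx'
      exact ⟨c + d, by rw [q1_add, hc, hd, add_smul]⟩
  · intro x y
    induction x using tens_ind with
    | hadd x x' hx hx' => rw [q0_add, add_mul, mul_add, hx, hx', add_zero]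
    | h k x =>
      induction y using tens_ind with
      | hadd y y' hy hy' => rw [q0_add, mul_add, mul_add, hy, hy', add_zero]
      | h l y => rw [q0_smul, q0_smul, q0_one, q0_one, mul_smul_comm, smul_mul_assoc,
          mul_smul_comm, mul_smul_comm, one_mul_one, one_mul_one, ha.zz, TensorProduct.tmul_zero,
          smul_zero, smul_zero]
  · intro x y
    induction x using tens_ind with
    | hadd x x' hx hx' => rw [q0_add, add_mul, mul_add, smul_add, hx, hx']
    | h k x =>
      induction y using tens_ind with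
      | hadd y y' hy hy' => rw [qh_add, mul_add, mul_add, smul_add, hy, hy']
      | h l y => rw [q0_smul, qh_smul, q0_one, qh_one, mul_smul_comm, smul_mul_assoc,
          mul_smul_comm, mul_smul_comm, one_mul_one, one_mul_one, smul_comm (2 : K) l,
          smul_comm (2 : K) k, smul_one2, ha.zh]
  · intro x y
    induction x using tens_ind with
    | hadd x x' hx hx' => rw [qh_add, add_mul, mul_add, mul_add, hx, hx']
    | h k x =>
      induction y using tens_ind with
      | hadd y y' hy hy' => rw [qh_add, mul_add, mul_add, mul_add, hy, hy']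
      | h l y => rw [qh_smul, qh_smul, qh_one, qh_one, mul_smul_comm, smul_mul_assoc,
          mul_smul_comm, mul_smul_comm, mul_smul_comm, mul_smul_comm, one_mul_one, one_mul_one,
          one_mul_one, ha.hh]

theorem one_inj : Function.Injective (fun x : A => (1 : K) ⊗ₜ[F] x) :=
  Module.FaithfullyFlat.tensorProduct_mk_injective (A := F) (B := K) A

theorem two_ext (h2 : (2 : F) ≠ 0) : (2 : K) ≠ 0 := by
  intro h
  apply h2
  apply (algebraMap F K).injective
  rw [map_ofNat, map_zero]
  exact h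

theorem IsHalfAxis.ext (h2 : (2 : F) ≠ 0) {a : A} (ha : IsHalfAxis F a) :
    IsHalfAxis K ((1 : K) ⊗ₜ[F] a) :=
  IsAx.isHalfAxis (two_ext K h2) ((ha.isAx h2).ext K)

theorem IsGram.ext {a b : A} {c : F} (h : IsGram F a b c) :
    IsGram K ((1 : K) ⊗ₜ[F] a) ((1 : K) ⊗ₜ[F] b) (algebraMap F K c) := by
  obtain ⟨x0, xh, e, h0, hh⟩ := h
  refine ⟨(1 : K) ⊗ₜ[F] x0, (1 : K) ⊗ₜ[F] xh, ?_, ?_, ?_⟩
  · rw [e, TensorProduct.tmul_add, TensorProduct.tmul_add, alg_smul_one]
  · rw [one_mul_one, h0, TensorProduct.tmul_zero]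
  · rw [one_mul_one, hh, ← alg_smul_one]
    congr 1
    rw [map_div₀, map_one, map_ofNat]

theorem adjoin_ext {ι : Type*} {a : ι → A} (hgen : NonUnitalAlgebra.adjoin F (Set.range a) = ⊤) :
    NonUnitalAlgebra.adjoin K (Set.range fun i => (1 : K) ⊗ₜ[F] a i) = ⊤ := by
  have key : ∀ x : A, (1 : K) ⊗ₜ[F] x ∈
      NonUnitalAlgebra.adjoin K (Set.range fun i => (1 : K) ⊗ₜ[F] a i) := by
    intro x
    have hx : x ∈ NonUnitalAlgebra.adjoin F (Set.range a) := by rw [hgen]; trivial
    induction hx using NonUnitalAlgebra.adjoin_induction with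
    | mem x hx =>
      obtain ⟨i, rfl⟩ := hx
      exact NonUnitalAlgebra.subset_adjoin K ⟨i, rfl⟩
    | add x y _ _ hx hy => rw [TensorProduct.tmul_add]; exact add_mem hx hy
    | zero => rw [TensorProduct.tmul_zero]; exact zero_mem _
    | mul x y _ _ hx hy => rw [← one_mul_one]; exact mul_mem hx hy
    | smul r x _ hx => rw [← alg_smul_one]; exact SMulMemClass.smul_mem _ hx
  rw [eq_top_iff]
  intro x _
  induction x using tens_ind with
  | h k x => exact SMulMemClass.smul_mem _ (key x)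
  | hadd x y hx hy => exact add_mem (hx trivial) (hy trivial)

end tens

theorem jordan_all {F : Type*} [Field F] {A : Type*} [NonUnitalNonAssocCommRing A] [Module F A]
    [IsScalarTower F A A] [SMulCommClass F A A] (h2 : (2 : F) ≠ 0) {ι : Type*} {a : ι → A}
    (ha : ∀ i, IsHalfAxis F (a i)) (ha0 : ∀ i, a i ≠ 0)
    (hgen : NonUnitalAlgebra.adjoin F (Set.range a) = ⊤) (Γ : SimpleGraph ι)
    (hΓ : Γ.Preconnected)
    (hφ : ∀ i j, Γ.Adj i j → ∃ c, IsGram F (a i) (a j) c ∧ gv c) (x y : A) :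
    x * (y * (x * x)) = (x * y) * (x * x) := by
  let K := RatFunc F
  have : Infinite K := Infinite.of_injective (algebraMap (Polynomial F) (RatFunc F))
    (IsFractionRing.injective _ _)
  have h2K : (2 : K) ≠ 0 := two_ext K h2
  have ha' : ∀ i, IsHalfAxis K ((1 : K) ⊗ₜ[F] a i) := fun i => (ha i).ext K h2
  have ha0' : ∀ i, (1 : K) ⊗ₜ[F] a i ≠ 0 := fun i h => ha0 i
    (one_inj (F := F) (A := A) K (by simpa using h))
  have hφ' : ∀ i j, Γ.Adj i j → gv (fn h2K (ha' i) (ha0' i) ((1 : K) ⊗ₜ[F] a j)) := by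
    intro i j hij
    obtain ⟨c, hc, c0, c4, c2⟩ := hφ i j hij
    rw [fn_gram h2K (ha' i) (ha0' i) (hc.ext K)]
    refine ⟨?_, ?_, ?_⟩
    · intro h
      exact c0 ((algebraMap F K).injective (by rw [h, map_zero]))
    · intro h
      exact c4 ((algebraMap F K).injective (by rw [map_mul, map_ofNat, h, map_one]))
    · intro h
      exact c2 ((algebraMap F K).injective (by rw [map_mul, map_ofNat, h, map_one]))
  have h := jordan_main (F := K) h2K ha' ha0' (adjoin_ext K hgen) Γ hΓ hφ'
    ((1 : K) ⊗ₜ[F] x) ((1 : K) ⊗ₜ[F] y)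
  simp only [one_mul_one] at h
  exact one_inj (F := F) (A := A) K h

end AxJ
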