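import Pool.Agent.Helper87.AxS.Path

/-!
Axes connected by generic edges are good for each other.
-/

namespace AxJ

open Submodule Polynomial

variable {F : Type*} [Field F] {A : Type*} [NonUnitalNonAssocCommRing A] [Module F A]
  [IsScalarTower F A A] [SMulCommClass F A A]

section conn
variable [Infinite F] (h2 : (2 : F) ≠ 0) {B : A →ₗ[F] A →ₗ[F] F}
  (hB : ∀ p (hp : IsHalfAxis F p) (h0 : p ≠ 0) (x : A), B p x = fn h2 hp h0 x)

/-- Generic edges. -/
def edge (B : A →ₗ[F] A →ₗ[F] F) (x y : A) : Prop :=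
  (IsHalfAxis F x ∧ x ≠ 0) ∧ (IsHalfAxis F y ∧ y ≠ 0) ∧ gv (B x y)

include hB

theorem B_symm {x y : A} (hx : IsHalfAxis F x) (hx0 : x ≠ 0) (hy : IsHalfAxis F y)
    (hy0 : y ≠ 0) : B x y = B y x := by
  rw [hB x hx hx0, hB y hy hy0]
  exact fn_symm h2 hx hx0 hy hy0

theorem edge_symm {x y : A} (h : edge B x y) : edge B y x := by
  obtain ⟨⟨hx, hx0⟩, ⟨hy, hy0⟩, h⟩ := h
  refine ⟨⟨hy, hy0⟩, ⟨hx, hx0⟩, ?_⟩
  rw [← B_symm h2 hB hx hx0 hy hy0]
  exact h

/-- The base case of the path argument. -/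
theorem base {a b : A} (h : edge B b a) :
    ∃ y, IsHalfAxis F y ∧ y ≠ 0 ∧ gv (B b y) ∧ 4 * B a y ≠ 1 ∧ 2 * B a y ≠ 1 := by
  obtain ⟨⟨hb, hb0⟩, ⟨ha, ha0⟩, hv⟩ := h
  have hv' : gv (B a b) := by
    rw [← B_symm h2 hB hb hb0 ha ha0]
    exact hv
  obtain ⟨z, v, hxe, hz, hvv, hy⟩ := curve h2 hB ha ha0 hb hb0 hv'.2.1 hv'.2.2
  set φ := B a b with hφ
  have haX : ∀ t : F, B a (a + t • v + (φ * t ^ 2) • z) = 1 := by
    intro t
    rw [map_add, map_add, map_smul, map_smul, hB a ha ha0, hB a ha ha0, hB a ha ha0, fn_self,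
      fn_zero h2 ha ha0 hz, fn_half h2 ha ha0 hvv]
    simp
  obtain ⟨t, ht⟩ := exists_t [dP φ, fP (B b) φ a v z, 4 * fP (B b) φ a v z - dP φ,
    2 * fP (B b) φ a v z - dP φ, 4 - dP φ, 2 - dP φ] (by
      intro P hP
      have hd0 : (dP φ).eval 0 = 1 := by rw [dP_eval]; ring
      have hb0 : (fP (B b) φ a v z).eval 0 = B b a := by
        rw [fP_eval]
        congr 1
        module
      simp only [List.mem_cons, List.not_mem_nil, or_false] at hP
      rcases hP with rfl | rfl | rfl | rfl | rfl | rfl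
      · exact poly_ne (s := 0) (by rw [hd0]; exact one_ne_zero)
      · exact poly_ne (s := 0) (by rw [hb0]; exact hv.1)
      · refine poly_ne (s := 0) ?_
        rw [eval_sub, eval_mul, hb0, hd0]
        have := hv.2.1
        simpa using sub_ne_zero.2 this
      · refine poly_ne (s := 0) ?_
        rw [eval_sub, eval_mul, hb0, hd0]
        have := hv.2.2
        simpa using sub_ne_zero.2 this
      · by_cases h3 : (3 : F) = 0
        · -- the coefficient of `X ^ 2`
          refine poly_ne (s := 1) ?_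
          rw [eval_sub, dP_eval]
          have e4 : eval (1 : F) (4 : F[X]) = 4 := by simp
          rw [e4]
          have hφ1 : 1 - φ ≠ 0 := by
            intro h1
            apply hv'.2.1
            have : φ = 1 := (sub_eq_zero.1 h1).symm
            rw [this]
            linear_combination h3
          have : (4 : F) - (1 + φ * (1 - φ) * 1 ^ 2) = - (φ * (1 - φ)) := by
            linear_combination h3
          rw [this]
          exact neg_ne_zero.2 (mul_ne_zero hv'.1 hφ1)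
        · refine poly_ne (s := 0) ?_
          rw [eval_sub, hd0]
          have e4 : eval (0 : F) (4 : F[X]) = 4 := by simp
          rw [e4]
          have : (4 : F) - 1 = 3 := by norm_num
          rw [this]
          exact h3
      · refine poly_ne (s := 0) ?_
        rw [eval_sub, hd0]
        have e4 : eval (0 : F) (2 : F[X]) = 2 := by simp
        rw [e4]
        have : (2 : F) - 1 = 1 := by norm_num
        rw [this]
        exact one_ne_zero)
  simp only [List.mem_cons, List.not_mem_nil, or_false, forall_eq_or_imp, forall_eq] at ht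
  obtain ⟨t1, t2, t3, t4, t5, t6⟩ := ht
  obtain ⟨h1, h1'⟩ := hy t t1
  have hm : B b (((dP φ).eval t)⁻¹ • (a + t • v + (φ * t ^ 2) • z)) =
      ((dP φ).eval t)⁻¹ * (fP (B b) φ a v z).eval t := by
    rw [map_smul, fP_eval, smul_eq_mul]
  have hm' : B a (((dP φ).eval t)⁻¹ • (a + t • v + (φ * t ^ 2) • z)) =
      ((dP φ).eval t)⁻¹ := by
    rw [map_smul, haX, smul_eq_mul, mul_one]
  simp only [eval_sub, eval_mul] at t3 t4 t5 t6
  have e4 : eval t (4 : F[X]) = 4 := by simp
  have e2 : eval t (2 : F[X]) = 2 := by simp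
  rw [e4] at t3 t5
  rw [e2] at t4 t6
  refine ⟨_, h1, h1', ⟨?_, ?_, ?_⟩, ?_, ?_⟩
  · rw [hm]
    exact mul_ne_zero (inv_ne_zero t1) t2
  · rw [hm]
    intro h
    apply t3
    field_simp at h
    rw [h]
    ring
  · rw [hm]
    intro h
    apply t4
    field_simp at h
    rw [h]
    ring
  · rw [hm']
    intro h
    apply t5
    field_simp at h
    rw [h]
    ring
  · rw [hm']
    intro h
    apply t6
    field_simp at h
    rw [h]
    ring

theorem path_pick {a b : A} (h : Relation.ReflTransGen (edge B) b a) :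
    b = a ∨ ∃ y, IsHalfAxis F y ∧ y ≠ 0 ∧ gv (B b y) ∧ 4 * B a y ≠ 1 ∧ 2 * B a y ≠ 1 := by
  induction h using Relation.ReflTransGen.head_induction_on with
  | refl => exact Or.inl rfl
  | head h1 h2' ih =>
    right
    rcases ih with rfl | ⟨y, hy, hy0, hg, h4, h2''⟩
    · exact base h2 hB h1
    · exact step h2 hB h1.2.1.1 h1.2.1.2 hy hy0 hg h1.2.2 h4 h2''

/-- Connected axes are good. -/
theorem good_path {a b : A} (ha : IsHalfAxis F a) (ha0 : a ≠ 0) (hb : IsHalfAxis F b)
    (hb0 : b ≠ 0) (h : Relation.ReflTransGen (edge B) b a) : b ∈ good F a := by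
  rcases path_pick h2 hB h with rfl | ⟨x, hx, hx0, hg, h4, h2'⟩
  · exact good_self h2 ha ha0
  obtain ⟨z, v, hxe, hz, hv, hy⟩ := curve h2 hB hb hb0 hx hx0 hg.2.1 hg.2.2
  set φ := B b x with hφ
  have hφ0 : φ ≠ 0 := hg.1
  have hd0 : (dP φ).eval 0 = 1 := by rw [dP_eval]; ring
  have hd1 : (dP φ).eval φ⁻¹ = φ⁻¹ := by
    rw [dP_eval]
    field_simp
    ring
  have ha1 : (fP (B a) φ b v z).eval φ⁻¹ = φ⁻¹ * B a x := by
    have e : φ⁻¹ * B a x = B a (φ⁻¹ • x) := by rw [map_smul, smul_eq_mul]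
    rw [fP_eval, e, hxe]
    congr 1
    match_scalars <;> field_simp
  have n1 : dP φ ≠ 0 := poly_ne (s := 0) (by rw [hd0]; exact one_ne_zero)
  have n2 : 4 * fP (B a) φ b v z - dP φ ≠ 0 := by
    refine poly_ne (s := φ⁻¹) ?_
    rw [eval_sub, eval_mul, ha1, hd1]
    have e : eval φ⁻¹ (4 : F[X]) * (φ⁻¹ * B a x) - φ⁻¹ = φ⁻¹ * (4 * B a x - 1) := by
      simp
      ring
    rw [e]
    exact mul_ne_zero (inv_ne_zero hφ0) (sub_ne_zero.2 h4)
  have n3 : 2 * fP (B a) φ b v z - dP φ ≠ 0 := by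
    refine poly_ne (s := φ⁻¹) ?_
    rw [eval_sub, eval_mul, ha1, hd1]
    have e : eval φ⁻¹ (2 : F[X]) * (φ⁻¹ * B a x) - φ⁻¹ = φ⁻¹ * (2 * B a x - 1) := by
      simp
      ring
    rw [e]
    exact mul_ne_zero (inv_ne_zero hφ0) (sub_ne_zero.2 h2')
  have hgood : ∀ t, (dP φ).eval t ≠ 0 → (4 * fP (B a) φ b v z - dP φ).eval t ≠ 0 →
      (2 * fP (B a) φ b v z - dP φ).eval t ≠ 0 →
      b + t • v + (φ * t ^ 2) • z ∈ good F a := by
    intro t t1 t5 t6
    obtain ⟨h1, h1'⟩ := hy t t1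
    have hm : B a (((dP φ).eval t)⁻¹ • (b + t • v + (φ * t ^ 2) • z)) =
        ((dP φ).eval t)⁻¹ * (fP (B a) φ b v z).eval t := by
      rw [map_smul, fP_eval, smul_eq_mul]
    simp only [eval_sub, eval_mul] at t5 t6
    have e4 : eval t (4 : F[X]) = 4 := by simp
    have e2 : eval t (2 : F[X]) = 2 := by simp
    rw [e4] at t5
    rw [e2] at t6
    have hmem := good_of h2 ha ha0 h1 h1' (by
      rw [← hB a ha ha0, hm]
      intro h
      apply t5
      field_simp at h
      rw [h]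
      ring) (by
      rw [← hB a ha ha0, hm]
      intro h
      apply t6
      field_simp at h
      rw [h]
      ring)
    have h5 := (good F a).smul_mem ((dP φ).eval t) hmem
    rwa [smul_smul, mul_inv_cancel₀ t1, one_smul] at h5
  obtain ⟨t, ht⟩ := exists_t [dP φ, 4 * fP (B a) φ b v z - dP φ, 2 * fP (B a) φ b v z - dP φ] (by
    intro P hP
    simp only [List.mem_cons, List.not_mem_nil, or_false] at hP
    rcases hP with rfl | rfl | rfl
    · exact n1
    · exact n2
    · exact n3)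
  obtain ⟨t', ht'⟩ := exists_t [dP φ, 4 * fP (B a) φ b v z - dP φ,
      2 * fP (B a) φ b v z - dP φ, X - C t] (by
    intro P hP
    simp only [List.mem_cons, List.not_mem_nil, or_false] at hP
    rcases hP with rfl | rfl | rfl | rfl
    · exact n1
    · exact n2
    · exact n3
    · exact X_sub_C_ne_zero t)
  obtain ⟨t'', ht''⟩ := exists_t [dP φ, 4 * fP (B a) φ b v z - dP φ,
      2 * fP (B a) φ b v z - dP φ, X - C t, X - C t'] (by
    intro P hP
    simp only [List.mem_cons, List.not_mem_nil, or_false] at hP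
    rcases hP with rfl | rfl | rfl | rfl | rfl
    · exact n1
    · exact n2
    · exact n3
    · exact X_sub_C_ne_zero t
    · exact X_sub_C_ne_zero t')
  simp only [List.mem_cons, List.not_mem_nil, or_false, forall_eq_or_imp, forall_eq,
    eval_sub (p := X), eval_X, eval_C] at ht ht' ht''
  have g1 := hgood t ht.1 ht.2.1 ht.2.2
  have g2 := hgood t' ht'.1 ht'.2.1 ht'.2.2.1
  have g3 := hgood t'' ht''.1 ht''.2.1 ht''.2.2.1
  have d1 : t' - t ≠ 0 := ht'.2.2.2
  have d2 : t'' - t ≠ 0 := ht''.2.2.2.1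
  have d3 : t'' - t' ≠ 0 := ht''.2.2.2.2
  have e : b = (t' * t'' / ((t' - t) * (t'' - t))) • (b + t • v + (φ * t ^ 2) • z) -
      (t * t'' / ((t' - t) * (t'' - t'))) • (b + t' • v + (φ * t' ^ 2) • z) +
      (t * t' / ((t'' - t) * (t'' - t'))) • (b + t'' • v + (φ * t'' ^ 2) • z) := by
    match_scalars <;> field_simp <;> ring
  rw [e]
  exact add_mem (sub_mem (smul_mem _ _ g1) (smul_mem _ _ g2)) (smul_mem _ _ g3)

end conn

end AxJ
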