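import Pool.Agent.Helper87.AxS.Vanish

/-!
The bilinear form, and the criterion for half axes.
-/

namespace AxJ

open Submodule

variable {F : Type*} [Field F] {A : Type*} [NonUnitalNonAssocCommRing A] [Module F A]
  [IsScalarTower F A A] [SMulCommClass F A A]

theorem exists_form (h2 : (2 : F) ≠ 0)
    (hspan : span F {p : A | IsHalfAxis F p ∧ p ≠ 0} = ⊤) :
    ∃ B : A →ₗ[F] A →ₗ[F] F, ∀ p (hp : IsHalfAxis F p) (h0 : p ≠ 0) (x : A),
      B p x = fn h2 hp h0 x := by
  obtain ⟨s, hs, hsp, hli⟩ := exists_linearIndependent F {p : A | IsHalfAxis F p ∧ p ≠ 0}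
  have htop : ⊤ ≤ span F (Set.range ((↑) : s → A)) := by
    rw [Subtype.range_coe, hsp, hspan]
  let bs : Module.Basis s F A := Module.Basis.mk hli htop
  have hbs : ∀ i, bs i = (i : A) := fun i => by simp [bs]
  let B : A →ₗ[F] A →ₗ[F] F := bs.constr F (fun i => fn h2 (hs i.2).1 (hs i.2).2)
  have hB : ∀ i : s, B (i : A) = fn h2 (hs i.2).1 (hs i.2).2 := fun i => by
    have := bs.constr_basis F (fun i : s => fn h2 (hs i.2).1 (hs i.2).2) i
    rw [hbs] at this
    exact this
  have key : ∀ q (hq : IsHalfAxis F q) (h0 : q ≠ 0) (x : A), B x q = fn h2 hq h0 x := by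
    intro q hq h0 x
    have : B.flip q = fn h2 hq h0 := by
      refine bs.ext fun i => ?_
      rw [hbs, LinearMap.flip_apply, hB]
      exact fn_symm h2 _ _ hq h0
    rw [← this, LinearMap.flip_apply]
  refine ⟨B, fun p hp h0 x => ?_⟩
  have : B p = fn h2 hp h0 := by
    refine LinearMap.ext_on hspan ?_
    rintro q ⟨hq, hq0⟩
    rw [key q hq hq0, fn_symm h2 hp h0 hq hq0]
  rw [this]

/-- The criterion for half axes. -/
theorem axis_of (h2 : (2 : F) ≠ 0) {x : A} (hx : x * x = x) (l : A → F)
    (hl : ∀ y, (2 : F) • (x * (x * y)) - x * y = l y • x)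
    (h3 : ∀ p q, jj p q x x = 0) (h4 : ∀ p q, jj x x p q = 0) : IsHalfAxis F x := by
  have hone : ∀ y, x * y = y → y = l y • x := by
    intro y hy
    have := hl y
    rw [hy, hy] at this
    rw [← this]
    module
  have hzc : ∀ p q, x * p = 0 → x * (p * q) = p * (x * q) := by
    intro p q hp
    have := h4 p q
    unfold jj at this
    rw [mul_comm p x, hx, hp] at this
    simp only [zero_mul, mul_zero, sub_zero, add_zero] at this
    exact sub_eq_zero.1 this
  have hhalf : ∀ y, x * y = (1 / 2 : F) • y ↔ (2 : F) • (x * y) = y := by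
    intro y
    constructor
    · intro h
      rw [h, smul_smul]
      simp [h2]
    · intro h
      conv_rhs => rw [← h]
      rw [smul_smul]
      simp [h2]
  have hmh : ∀ p q, x * p = (1 / 2 : F) • p → x * q = (1 / 2 : F) • q →
      x * (x * (p * q)) = x * (p * q) := by
    intro p q hp hq
    have h34 := ff_ne h2
    have := h3 p q
    unfold jj at this
    have e : q * p = p * q := mul_comm _ _
    have e1 : q * x = (1 / 2 : F) • q := by rw [mul_comm, hq]
    have e2 : p * x = (1 / 2 : F) • p := by rw [mul_comm, hp]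
    have e3 : (p * q) * x = x * (p * q) := mul_comm _ _
    simp only [hx, hp, e1, e2, e3, e, smul_mul_assoc, mul_smul_comm] at this
    have h5 : x * (x * (p * q)) - x * (p * q) = 0 := by
      linear_combination (norm := skip) -this
      match_scalars <;> field_simp <;> ring
    exact sub_eq_zero.1 h5
  have m1 : ∀ y, y ∈ eig F x 1 ↔ x * y = y := fun y => by rw [mem_eig, one_smul]
  have m0 : ∀ y, y ∈ eig F x 0 ↔ x * y = 0 := fun y => by rw [mem_eig, zero_smul]
  have hpl : ∀ y ∈ eig F x 1 ⊔ eig F x 0, ∃ (c : F) (y0 : A), y = c • x + y0 ∧ x * y0 = 0 := by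
    intro y hy
    obtain ⟨y1, hy1, y0, hy0, rfl⟩ := mem_sup.1 hy
    rw [m1] at hy1
    rw [m0] at hy0
    refine ⟨l y1, y0, ?_, hy0⟩
    rw [← hone y1 hy1]
  have hpl' : ∀ (c : F) (y0 : A), x * y0 = 0 → c • x + y0 ∈ eig F x 1 ⊔ eig F x 0 := by
    intro c y0 h
    refine add_mem (mem_sup_left ?_) (mem_sup_right ?_)
    · rw [m1, mul_smul_comm, hx]
    · rw [m0]
      exact h
  constructor
  · exact hx
  · apply le_antisymm
    · intro y hy
      rw [m1] at hy
      rw [hone y hy]
      exact smul_mem _ _ (mem_span_singleton_self x)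
    · rw [span_singleton_le_iff_mem, m1]
      exact hx
  · rw [eq_top_iff]
    intro y _
    have h := hl y
    have e1 : y = l y • x + (y - l y • x - ((2 : F) • (x * y) - (2 * l y) • x)) +
        ((2 : F) • (x * y) - (2 * l y) • x) := by module
    have hh : x * ((2 : F) • (x * y) - (2 * l y) • x) =
        (1 / 2 : F) • ((2 : F) • (x * y) - (2 * l y) • x) := by
      simp only [mul_sub, mul_smul_comm, hx]
      linear_combination (norm := skip) h
      match_scalars <;> field_simp <;> ring
    have hz : x * (y - l y • x - ((2 : F) • (x * y) - (2 * l y) • x)) = 0 := by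
      simp only [mul_sub, mul_smul_comm, hx]
      linear_combination (norm := skip) -h
      match_scalars <;> ring
    rw [e1]
    exact add_mem (mem_sup_left (hpl' _ _ hz)) (mem_sup_right (mem_eig.2 hh))
  · intro y hy y' hy'
    obtain ⟨c, y0, rfl, h0⟩ := hpl y hy
    obtain ⟨c', y0', rfl, h0'⟩ := hpl y' hy'
    have e : (c • x + y0) * (c' • x + y0') = (c * c') • x + y0 * y0' := by
      simp only [add_mul, mul_add, smul_mul_assoc, mul_smul_comm, hx, h0, h0', mul_comm y0 x]
      module
    rw [e]
    apply hpl'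
    rw [hzc y0 y0' h0, h0', mul_zero]
  · intro y hy y' hy'
    obtain ⟨c, y0, rfl, h0⟩ := hpl y hy
    rw [mem_eig] at hy' ⊢
    rw [add_mul, mul_add, hzc y0 y' h0, smul_mul_assoc, mul_smul_comm, hy']
    simp only [mul_smul_comm, hy', smul_add, smul_smul]
    match_scalars <;> ring
  · intro y hy y' hy'
    rw [mem_eig] at hy hy'
    have h5 := hmh y y' hy hy'
    have h6 := hl (y * y')
    rw [h5] at h6
    have h7 : x * (y * y') = l (y * y') • x := by
      rw [← h6]
      module
    have e : y * y' = l (y * y') • x + (y * y' - l (y * y') • x) := by module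
    rw [e]
    apply hpl'
    rw [mul_sub, mul_smul_comm, hx, h7, sub_self]
  · intro y hy y' hy'
    rw [m0] at hy hy' ⊢
    rw [hzc y y' hy, hy', mul_zero]

end AxJ
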