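import Pool.Agent.Helper87.AxS.Conn

/-!
Algebras generated by axes that are connected by generic edges are Jordan algebras.
-/

namespace AxJ

open Submodule

variable {F : Type*} [Field F] {A : Type*} [NonUnitalNonAssocCommRing A] [Module F A]
  [IsScalarTower F A A] [SMulCommClass F A A]

theorem fn_map (h2 : (2 : F) ≠ 0) (e : A ≃ₗ[F] A) (he : ∀ x y, e (x * y) = e x * e y) {a : A}
    (ha : IsHalfAxis F a) (ha0 : a ≠ 0) (ha' : IsHalfAxis F (e a)) (ha0' : e a ≠ 0) (x : A) :
    fn h2 ha' ha0' (e x) = fn h2 ha ha0 x := by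
  apply fn_eq
  rw [← he, ← he, ← map_smul, ← map_sub, fn_spec h2 ha ha0, map_smul]

/-- A span of axes which is closed under the involutions of the generators is everything. -/
theorem span_top (h2 : (2 : F) ≠ 0) {ι : Type*} {a : ι → A} (ha : ∀ i, IsHalfAxis F (a i))
    (ha0 : ∀ i, a i ≠ 0) (hgen : NonUnitalAlgebra.adjoin F (Set.range a) = ⊤) {S : Set A}
    (hS : ∀ i, a i ∈ S) (hτ : ∀ i, ∀ p ∈ S, tauE h2 (ha i) (ha0 i) p ∈ S) : span F S = ⊤ := by
  refine closed_eq_top h2 ha hgen (fun i => subset_span (hS i)) ?_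
  intro i x hx
  have f4 := ff_ne h2
  have e : a i * x = (4 : F)⁻¹ • (x - tauE h2 (ha i) (ha0 i) x) +
      fn h2 (ha i) (ha0 i) x • a i := by
    rw [tauE_apply]
    match_scalars <;> field_simp <;> ring
  have h1 : tauE h2 (ha i) (ha0 i) x ∈ span F S := by
    have : (span F S).map (tauE h2 (ha i) (ha0 i) : A →ₗ[F] A) ≤ span F S := by
      rw [map_span, span_le]
      rintro _ ⟨p, hp, rfl⟩
      exact subset_span (hτ i p hp)
    exact this (mem_map_of_mem hx)
  rw [e]
  exact add_mem (smul_mem _ _ (sub_mem hx h1)) (smul_mem _ _ (subset_span (hS i)))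

theorem axes_span (h2 : (2 : F) ≠ 0) {ι : Type*} {a : ι → A}
    (ha : ∀ i, IsHalfAxis F (a i)) (ha0 : ∀ i, a i ≠ 0)
    (hgen : NonUnitalAlgebra.adjoin F (Set.range a) = ⊤) :
    span F {p : A | IsHalfAxis F p ∧ p ≠ 0} = ⊤ :=
  span_top h2 ha ha0 hgen (fun i => ⟨ha i, ha0 i⟩)
    (fun i p hp => ⟨tau_axis h2 (ha i) (ha0 i) hp.1, tau_ne h2 (ha i) (ha0 i) hp.2⟩)

theorem jordan_core [Infinite F] (h2 : (2 : F) ≠ 0) {ι : Type*} {a : ι → A}
    (ha : ∀ i, IsHalfAxis F (a i)) (ha0 : ∀ i, a i ≠ 0)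
    (hgen : NonUnitalAlgebra.adjoin F (Set.range a) = ⊤) {B : A →ₗ[F] A →ₗ[F] F}
    (hB : ∀ p (hp : IsHalfAxis F p) (h0 : p ≠ 0) (x : A), B p x = fn h2 hp h0 x)
    (hpath : ∀ i j, Relation.ReflTransGen (edge B) (a i) (a j)) (x y : A) :
    x * (y * (x * x)) = (x * y) * (x * x) := by
  have hBm : ∀ (e : A ≃ₗ[F] A), (∀ x y, e (x * y) = e x * e y) → ∀ p q,
      edge B p q → edge B (e p) (e q) := by
    rintro e he p q ⟨⟨hp, hp0⟩, ⟨hq, hq0⟩, hg⟩
    have hp' := axis_map e he hp
    have hp0' : e p ≠ 0 := by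
      rw [Ne, LinearEquiv.map_eq_zero_iff]
      exact hp0
    refine ⟨⟨hp', hp0'⟩, ⟨axis_map e he hq, ?_⟩, ?_⟩
    · rw [Ne, LinearEquiv.map_eq_zero_iff]
      exact hq0
    · rw [hB _ hp' hp0', fn_map h2 e he hp hp0 hp' hp0', ← hB p hp hp0]
      exact hg
  have hsymm : ∀ {p q : A}, Relation.ReflTransGen (edge B) p q →
      Relation.ReflTransGen (edge B) q p := by
    intro p q h
    induction h with
    | refl => exact Relation.ReflTransGen.refl
    | tail _ h ih => exact Relation.ReflTransGen.head (edge_symm h2 hB h) ih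
  -- the connected set of axes
  have hS : ∀ i0 : ι, span F {p : A | (IsHalfAxis F p ∧ p ≠ 0) ∧
      Relation.ReflTransGen (edge B) p (a i0)} = ⊤ := by
    intro i0
    refine span_top h2 ha ha0 hgen (fun i => ⟨⟨ha i, ha0 i⟩, hpath i i0⟩) ?_
    rintro i p ⟨⟨hp, hp0⟩, hpp⟩
    refine ⟨⟨tau_axis h2 (ha i) (ha0 i) hp, tau_ne h2 (ha i) (ha0 i) hp0⟩, ?_⟩
    have h1 : Relation.ReflTransGen (edge B) (tauE h2 (ha i) (ha0 i) p)
        (tauE h2 (ha i) (ha0 i) (a i)) := Relation.ReflTransGen.lift (r := edge B) (p := edge B)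
      (tauE h2 (ha i) (ha0 i)) (fun p q h => hBm _ (tauE_mul h2 (ha i) (ha0 i)) p q h)
      _ _ (hpp.trans (hpath i0 i))
    have h3 : tauE h2 (ha i) (ha0 i) (a i) = a i := by
      rw [tauE_apply, (ha i).idem, fn_self]
      module
    rw [h3] at h1
    exact h1.trans (hpath i i0)
  rcases isEmpty_or_nonempty ι with hι | ⟨⟨i0⟩⟩
  · have h0 : (⊥ : Submodule F A) = ⊤ :=
      closed_eq_top h2 ha hgen (fun i => (hι.false i).elim) (fun i => (hι.false i).elim)
    have hz : ∀ w : A, w = 0 := fun w => by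
      have : w ∈ (⊥ : Submodule F A) := by rw [h0]; trivial
      simpa using this
    rw [hz (x * (y * (x * x))), hz ((x * y) * (x * x))]
  have hS0 := hS i0
  -- all triples
  have hjj : ∀ u v w q : A, jj u v w q = 0 := by
    intro u v w q
    have hu : u ∈ span F {p : A | (IsHalfAxis F p ∧ p ≠ 0) ∧
      Relation.ReflTransGen (edge B) p (a i0)} := by rw [hS0]; trivial
    induction hu using span_induction with
    | mem p hp =>
      obtain ⟨⟨hp, hp0⟩, hpp⟩ := hp
      refine all_of_good h2 hp hp0 ?_ v w q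
      rw [eq_top_iff, ← hS0, span_le]
      rintro b ⟨⟨hb, hb0⟩, hbp⟩
      exact good_path h2 hB hp hp0 hb hb0 (hbp.trans (hsymm hpp))
    | zero => rw [← f4_apply (F := F), map_zero]; rfl
    | add u u' _ _ h1 h2 =>
      rw [← f4_apply (F := F), map_add, LinearMap.add_apply, f4_apply, f4_apply, h1, h2, add_zero]
    | smul c u _ h1 =>
      rw [← f4_apply (F := F), map_smul, LinearMap.smul_apply, f4_apply, h1, smul_zero]
  -- the Jordan identity
  have hx : x ∈ span F {p : A | (IsHalfAxis F p ∧ p ≠ 0) ∧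
      Relation.ReflTransGen (edge B) p (a i0)} := by rw [hS0]; trivial
  induction hx using span_induction with
  | mem p hp =>
    rw [hp.1.1.idem, mul_comm (p * y) p, mul_comm y p]
  | zero => simp
  | add u u' _ _ h1 h2 =>
    have k1 := hjj u u u' y
    have k2 := hjj u' u' u y
    unfold jj at k1 k2
    have e : u' * u = u * u' := mul_comm _ _
    rw [e] at k1 k2
    have c : ∀ s t : A, s * t = t * s := mul_comm
    have e1 : u * (y * (u * u)) = (u * y) * (u * u) := h1
    have e2 : u' * (y * (u' * u')) = (u' * y) * (u' * u') := h2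
    have r1 : y * (u * u) = (u * u) * y := c _ _
    have r2 : y * (u' * u') = (u' * u') * y := c _ _
    have r3 : y * (u * u') = (u * u') * y := c _ _
    have r4 : (u * y) * (u * u) = (u * u) * (u * y) := c _ _
    have r5 : (u' * y) * (u' * u') = (u' * u') * (u' * y) := c _ _
    have r6 : (u * y) * (u' * u') = (u' * u') * (u * y) := c _ _
    have r7 : (u' * y) * (u * u) = (u * u) * (u' * y) := c _ _
    have r8 : (u * y) * (u * u') = (u * u') * (u * y) := c _ _
    have r9 : (u' * y) * (u * u') = (u * u') * (u' * y) := c _ _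
    rw [r1, r4] at e1
    rw [r2, r5] at e2
    simp only [add_mul, mul_add, e, r1, r2, r3, r4, r5, r6, r7, r8, r9]
    rw [← sub_eq_zero] at e1 e2 ⊢
    have k : u * (u * u * y) - u * u * (u * y) + (u' * (u' * u' * y) - u' * u' * (u' * y)) -
        ((u * u) * (u' * y) - u' * ((u * u) * y) + ((u * u') * (u * y) - u * ((u * u') * y)) +
          ((u * u') * (u * y) - u * ((u * u') * y))) -
        ((u' * u') * (u * y) - u * ((u' * u') * y) + ((u * u') * (u' * y) - u' * ((u * u') * y)) +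
          ((u * u') * (u' * y) - u' * ((u * u') * y))) = 0 := by
      rw [e1, e2, k1, k2]
      simp
    rw [← k]
    abel
  | smul c u _ h1 =>
    simp only [smul_mul_assoc, mul_smul_comm, h1]

theorem jordan_main [Infinite F] (h2 : (2 : F) ≠ 0) {ι : Type*} {a : ι → A}
    (ha : ∀ i, IsHalfAxis F (a i)) (ha0 : ∀ i, a i ≠ 0)
    (hgen : NonUnitalAlgebra.adjoin F (Set.range a) = ⊤) (Γ : SimpleGraph ι)
    (hΓ : Γ.Preconnected)
    (hφ : ∀ i j, Γ.Adj i j → gv (fn h2 (ha i) (ha0 i) (a j))) (x y : A) :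
    x * (y * (x * x)) = (x * y) * (x * x) := by
  obtain ⟨B, hB⟩ := exists_form h2 (axes_span h2 ha ha0 hgen)
  have hedge : ∀ i j, Γ.Adj i j → edge B (a i) (a j) := fun i j h =>
    ⟨⟨ha i, ha0 i⟩, ⟨ha j, ha0 j⟩, by rw [hB _ (ha i) (ha0 i)]; exact hφ i j h⟩
  have hpath : ∀ i j, Relation.ReflTransGen (edge B) (a i) (a j) := by
    intro i j
    have h := (SimpleGraph.reachable_iff_reflTransGen i j).1 (hΓ i j)
    exact Relation.ReflTransGen.lift a (fun i j h => hedge i j h) i j h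
  exact jordan_core h2 ha ha0 hgen hB hpath x y

end AxJ
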