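import Pool.Agent.Helper87.AxS.Half
import Pool.Agent.Helper87.AxS.Main

/-!
The form is associative; lines with Gram value 1/2 are solid; the main theorem for all edges with
value different from 0 and 1/4.
-/

set_option linter.unusedSectionVars false

namespace AxJ

open Submodule

variable {F : Type*} [Field F] {A : Type*} [NonUnitalNonAssocCommRing A] [Module F A]
  [IsScalarTower F A A] [SMulCommClass F A A]

section fro
variable [Infinite F] (h2 : (2 : F) ≠ 0) {B : A →ₗ[F] A →ₗ[F] F}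
  (hB : ∀ p (hp : IsHalfAxis F p) (h0 : p ≠ 0) (x : A), B p x = fn h2 hp h0 x)
  (hspan : span F {p : A | IsHalfAxis F p ∧ p ≠ 0} = ⊤)
include hB hspan

theorem B_sym (x y : A) : B x y = B y x := by
  have hx : x ∈ span F {p : A | IsHalfAxis F p ∧ p ≠ 0} := by rw [hspan]; trivial
  have hy : y ∈ span F {p : A | IsHalfAxis F p ∧ p ≠ 0} := by rw [hspan]; trivial
  induction hx using span_induction with
  | mem p hp =>
    induction hy using span_induction with
    | mem q hq => exact B_symm h2 hB hp.1 hp.2 hq.1 hq.2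
    | zero => simp
    | add u v _ _ h3 h4 => simp only [map_add, LinearMap.add_apply, h3, h4]
    | smul c u _ h3 => simp only [map_smul, LinearMap.smul_apply, h3]
  | zero => simp
  | add u v _ _ h3 h4 => simp only [map_add, LinearMap.add_apply, h3, h4]
  | smul c u _ h3 => simp only [map_smul, LinearMap.smul_apply, h3]

theorem B_map (e : A ≃ₗ[F] A) (he : ∀ x y, e (x * y) = e x * e y) (x y : A) :
    B (e x) (e y) = B x y := by
  have hx : x ∈ span F {p : A | IsHalfAxis F p ∧ p ≠ 0} := by rw [hspan]; trivial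
  induction hx using span_induction with
  | mem p hp =>
    have hp' := axis_map e he hp.1
    have hp0' : e p ≠ 0 := by
      rw [Ne, LinearEquiv.map_eq_zero_iff]
      exact hp.2
    rw [hB _ hp' hp0', fn_map h2 e he hp.1 hp.2 hp' hp0', ← hB p hp.1 hp.2]
  | zero => simp
  | add u v _ _ h3 h4 => simp only [map_add, LinearMap.add_apply, h3, h4]
  | smul c u _ h3 => simp only [map_smul, LinearMap.smul_apply, h3]

theorem B_fro_axis {a : A} (ha : IsHalfAxis F a) (ha0 : a ≠ 0) (x y : A) :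
    B (a * x) y = B x (a * y) := by
  have h44 := ff_ne h2
  have hm := B_map h2 hB hspan (tauE h2 ha ha0) (tauE_mul h2 ha ha0)
  have e : ∀ x, a * x = (4 : F)⁻¹ • (x - tauE h2 ha ha0 x) + fn h2 ha ha0 x • a := by
    intro x
    rw [tauE_apply]
    match_scalars <;> field_simp <;> ring
  have ht : B (tauE h2 ha ha0 x) y = B x (tauE h2 ha ha0 y) := by
    rw [← hm x (tauE h2 ha ha0 y)]
    congr 1
    have := tauL_tauL h2 ha ha0 y
    exact this.symm
  rw [e x, e y]
  simp only [map_add, map_sub, map_smul, LinearMap.add_apply, LinearMap.sub_apply,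
    LinearMap.smul_apply, smul_eq_mul, ht]
  rw [← hB a ha ha0 x, ← hB a ha ha0 y, B_sym h2 hB hspan x a]
  ring

theorem B_fro (x y z : A) : B (x * y) z = B x (y * z) := by
  have hy : y ∈ span F {p : A | IsHalfAxis F p ∧ p ≠ 0} := by rw [hspan]; trivial
  induction hy using span_induction with
  | mem p hp =>
    rw [mul_comm x p]
    exact B_fro_axis h2 hB hspan hp.1 hp.2 x z
  | zero => simp
  | add u v _ _ h3 h4 => simp only [map_add, LinearMap.add_apply, mul_add, add_mul, h3, h4]
  | smul c u _ h3 => simp only [map_smul, LinearMap.smul_apply, mul_smul_comm, smul_mul_assoc, h3]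

end fro

section quad
variable (h2 : (2 : F) ≠ 0) {a b : A} (ha : IsHalfAxis F a) (ha0 : a ≠ 0)
  (hb : IsHalfAxis F b) (hb0 : b ≠ 0)
include ha0 hb hb0

theorem quad_half (Q : A →ₗ[F] A →ₗ[F] A) (hQs : ∀ x y, Q x y = Q y x)
    (hQ : ∀ p, IsHalfAxis F p → p ≠ 0 → Q p p = 0) (hφ : fn h2 ha ha0 b = 1 / 2)
    {z v : A} (hbe : b = (1 / 2 : F) • a + z + v) (hz : a * z = 0)
    (hv : a * v = (1 / 2 : F) • v) :
    Q a v + Q ((2 : F) • z) v = 0 ∧ Q z z = 0 ∧ Q v v = -Q a z := by
  have h44 := ff_ne h2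
  obtain ⟨k1, k2, k3, -⟩ := four_axes h2 ha ha0 hb hb0 hφ hbe hz hv (fun p => Q p p = 0) hQ
  have haa := hQ a ha ha0
  have s1 := hQs v a
  have s2 := hQs z a
  have s3 := hQs v z
  have e1 : (1 - 2 * (1 / 2 : F)) ^ 2 = 0 := by field_simp; norm_num
  have e2 : (4 * (1 / 2 : F)) = 2 := by field_simp; norm_num
  have e3 : (4 * (1 / 2 : F) - 2) = 0 := by rw [e2]; ring
  rw [e1, e3, e2] at k3
  simp only [map_add, map_sub, map_smul, LinearMap.add_apply, LinearMap.sub_apply,
    LinearMap.smul_apply, haa, s1, s2, s3, smul_zero, smul_add, smul_sub, smul_smul,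
    zero_add, zero_smul, add_zero, zero_mul, mul_zero] at k1 k2 k3 ⊢
  have x6 : Q z z = 0 := by
    refine (smul_eq_zero.1 k3).resolve_left (mul_ne_zero h2 h2)
  refine ⟨?_, x6, ?_⟩
  · have : (2 : F) • (Q a v + (2 : F) • Q z v) = 0 := by
      linear_combination (norm := skip) k1 - k2
      match_scalars <;> field_simp <;> ring
    exact (smul_eq_zero.1 this).resolve_left h2
  · have : (2 : F) • (Q v v + Q a z) + (2 : F) • Q z z = 0 := by
      linear_combination (norm := skip) k1 + k2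
      match_scalars <;> field_simp <;> ring
    rw [x6, smul_zero, add_zero] at this
    exact eq_neg_of_add_eq_zero_left ((smul_eq_zero.1 this).resolve_left h2)

theorem quad_cone_half (Q : A →ₗ[F] A →ₗ[F] A) (hQs : ∀ x y, Q x y = Q y x)
    (hQ : ∀ p, IsHalfAxis F p → p ≠ 0 → Q p p = 0) (hφ : fn h2 ha ha0 b = 1 / 2)
    {z v : A} (hbe : b = (1 / 2 : F) • a + z + v) (hz : a * z = 0)
    (hv : a * v = (1 / 2 : F) • v) (hav : Q a v = 0) (t : F) :
    Q (a + t • v + (1 / 2 * t ^ 2) • z) (a + t • v + (1 / 2 * t ^ 2) • z) = 0 := by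
  obtain ⟨x1, x3, x4⟩ := quad_half h2 ha ha0 hb hb0 Q hQs hQ hφ hbe hz hv
  have haa := hQ a ha ha0
  have s1 := hQs v a
  have s2 := hQs z a
  have s3 := hQs v z
  have x2 : Q z v = 0 := by
    rw [hav, zero_add, map_smul, LinearMap.smul_apply] at x1
    exact (smul_eq_zero.1 x1).resolve_left h2
  simp only [map_add, map_smul, LinearMap.add_apply, LinearMap.smul_apply, haa, s1, s2, s3, hav, x2,
    x3, x4, smul_zero, smul_smul, zero_add, add_zero]
  match_scalars <;> field_simp <;> ring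

end quad

section solidh
variable [Infinite F] (h2 : (2 : F) ≠ 0) {B : A →ₗ[F] A →ₗ[F] F}
  (hB : ∀ p (hp : IsHalfAxis F p) (h0 : p ≠ 0) (x : A), B p x = fn h2 hp h0 x)
  (hspan : span F {p : A | IsHalfAxis F p ∧ p ≠ 0} = ⊤)
  {a b : A} (ha : IsHalfAxis F a) (ha0 : a ≠ 0) (hb : IsHalfAxis F b) (hb0 : b ≠ 0)
include hB hspan ha ha0 hb hb0

theorem hd_of (hφ : B a b = 1 / 2) {z v : A}
    (hbe : b = (1 / 2 : F) • a + z + v) (hz : a * z = 0) (hv : a * v = (1 / 2 : F) • v)
    (hzv : z * v = (1 / 2 * (1 - 1 / 2 : F)) • v) : HD B a ((2 : F) • z) v := by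
  have h44 := ff_ne h2
  have hφ' : fn h2 ha ha0 b = 1 / 2 := by rw [← hB a ha ha0 b, hφ]
  have e1 : (1 - 2 * (1 / 2 : F)) ^ 2 = 0 := by field_simp; norm_num
  have e2 : (4 * (1 / 2 : F)) = 2 := by field_simp; norm_num
  have e3 : (4 * (1 / 2 : F) - 2) = 0 := by rw [e2]; ring
  have h4 := (four_axes h2 ha ha0 hb hb0 hφ' hbe hz hv (fun p => IsHalfAxis F p ∧ p ≠ 0)
    (fun p hp h0 => ⟨hp, h0⟩)).2.2.1
  rw [e1, e3, e2, zero_smul, zero_smul, zero_add, add_zero] at h4
  refine ⟨ha, h4.1, ha0, h4.2, ?_, hv, ?_, ?_, ?_, ?_, B_fro h2 hB hspan, B_sym h2 hB hspan,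
    ?_, ?_⟩
  · rw [mul_smul_comm, hz, smul_zero]
  · rw [smul_mul_assoc, hzv, smul_smul]
    congr 1
    field_simp
    ring
  · intro p q
    have := (quad_half h2 ha ha0 hb hb0 (f4 F p q) (fun _ _ => jj_comm12 _ _ _ _)
      (fun r hr hr0 => jj_aa h2 hr hr0 p q) hφ' hbe hz hv).1
    exact this
  · intro q
    refine (quad_half h2 ha ha0 hb hb0 (f2 B q) ?_ ?_ hφ' hbe hz hv).1
    · intro x y
      rw [f2_apply, f2_apply, mul_comm y x]
      abel
    · intro p hp hp0
      rw [f2_apply, hB p hp hp0, hp.idem]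
      have h := fn_spec h2 hp hp0 q
      linear_combination (norm := skip) h
      match_scalars <;> field_simp <;> ring
  · intro p q
    have h := (quad_half h2 ha ha0 hb hb0 (f3 F p q + (f3 F p q).flip) ?_ ?_ hφ' hbe hz hv).1
    · simp only [LinearMap.add_apply, LinearMap.flip_apply, f3_apply] at h
      exact h
    · intro x y
      simp only [LinearMap.add_apply, LinearMap.flip_apply]
      rw [add_comm]
    · intro r hr hr0
      simp only [LinearMap.add_apply, LinearMap.flip_apply, f3_apply, jj_pa h2 hr hr0]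
      simp
  · rw [hB a ha ha0, fn_self]
  · rw [hB _ h4.1 h4.2, fn_self]

theorem solid_half (hφ : B a b = 1 / 2) {z v : A}
    (hbe : b = (1 / 2 : F) • a + z + v) (hz : a * z = 0) (hv : a * v = (1 / 2 : F) • v)
    (hzz : z * z = (1 - 1 / 2 : F) • z)
    (hvv : v * v = (1 / 2 * (1 - 1 / 2) : F) • a + (1 / 2 : F) • z)
    (hzv : z * v = (1 / 2 * (1 - 1 / 2 : F)) • v) (t : F)
    (hD : 1 + 1 / 2 * (1 - 1 / 2) * t ^ 2 ≠ 0) :
    IsHalfAxis F ((1 + 1 / 2 * (1 - 1 / 2) * t ^ 2)⁻¹ • (a + t • v + (1 / 2 * t ^ 2) • z)) ∧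
      (1 + 1 / 2 * (1 - 1 / 2) * t ^ 2)⁻¹ • (a + t • v + (1 / 2 * t ^ 2) • z) ≠ 0 := by
  have h44 := ff_ne h2
  have hφ' : fn h2 ha ha0 b = 1 / 2 := by rw [← hB a ha ha0 b, hφ]
  have H := hd_of h2 hB hspan ha ha0 hb hb0 hφ hbe hz hv hzv
  constructor
  · apply quad_all h2 hB _ _ _ _ hD
    · have e1 : z * a = 0 := by rw [mul_comm]; exact hz
      have e2 : v * a = (1 / 2 : F) • v := by rw [mul_comm]; exact hv
      have e3 : v * z = z * v := mul_comm _ _
      simp only [add_mul, mul_add, smul_mul_assoc, mul_smul_comm, ha.idem, e1, hz, hv, e2, e3, hzv,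
        hvv, hzz, smul_zero, add_zero, zero_add]
      match_scalars <;> field_simp <;> ring
    · intro q
      refine quad_cone_half h2 ha ha0 hb hb0 (f2 B q) ?_ ?_ hφ' hbe hz hv (H.K2 h2 q) t
      · intro x y
        rw [f2_apply, f2_apply, mul_comm y x]
        abel
      · intro p hp hp0
        rw [f2_apply, hB p hp hp0, hp.idem]
        have h := fn_spec h2 hp hp0 q
        linear_combination (norm := skip) h
        match_scalars <;> field_simp <;> ring
    · intro p q
      have h := quad_cone_half h2 ha ha0 hb hb0 (f3 F p q + (f3 F p q).flip) ?_ ?_ hφ' hbe hz hv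
        (H.K3 h2 p q) t
      · simp only [LinearMap.add_apply, LinearMap.flip_apply, f3_apply] at h
        rw [← two_smul F] at h
        exact (smul_eq_zero.1 h).resolve_left h2
      · intro x y
        simp only [LinearMap.add_apply, LinearMap.flip_apply]
        rw [add_comm]
      · intro r hr hr0
        simp only [LinearMap.add_apply, LinearMap.flip_apply, f3_apply, jj_pa h2 hr hr0]
        simp
    · intro p q
      exact quad_cone_half h2 ha ha0 hb hb0 (f4 F p q) (fun x y => jj_comm12 x y p q)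
        (fun r hr hr0 => jj_aa h2 hr hr0 p q) hφ' hbe hz hv (H.K4 h2 p q) t
  · intro h
    have h5 := congrArg (B a) h
    rw [map_zero, map_smul, map_add, map_add, map_smul, map_smul, hB a ha ha0, hB a ha ha0,
      hB a ha ha0, fn_self, fn_zero h2 ha ha0 hz, fn_half h2 ha ha0 hv] at h5
    simp only [mul_zero, add_zero, smul_eq_mul, mul_one] at h5
    exact inv_ne_zero hD h5

end solidh

end AxJ
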