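import Pool.Agent.Helper87.AxS.Solid

/-!
The linearized Jordan identity `J(a, b, c)` for axes, and the paths of generic edges.
-/

namespace AxJ

open Submodule

variable {F : Type*} [Field F] {A : Type*} [NonUnitalNonAssocCommRing A] [Module F A]
  [IsScalarTower F A A] [SMulCommClass F A A]

section good
variable (h2 : (2 : F) ≠ 0) {a : A} (ha : IsHalfAxis F a) (ha0 : a ≠ 0)

/-- `x` is good for `a` if `J(a, x, y) = 0` for all `y` in the 0-eigenspace of `a`. -/
def good (F : Type*) [Field F] {A : Type*} [NonUnitalNonAssocCommRing A] [Module F A]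
    [IsScalarTower F A A] [SMulCommClass F A A] (a : A) : Submodule F A where
  carrier := {x | ∀ y, a * y = 0 → ∀ q, jj a x y q = 0}
  add_mem' := by
    intro x x' hx hx' y hy q
    have h : jj a (x + x') y q = jj a x y q + jj a x' y q := by
      rw [← f4_apply (F := F), ← f4_apply (F := F), ← f4_apply (F := F), map_add]
    rw [h, hx y hy q, hx' y hy q, add_zero]
  zero_mem' := by
    intro y _ q
    rw [← f4_apply (F := F), map_zero]
  smul_mem' := by
    intro c x hx y hy q
    rw [← f4_apply (F := F), map_smul, f4_apply, hx y hy q, smul_zero]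

include h2 ha ha0

theorem good_of {b : A} (hb : IsHalfAxis F b) (hb0 : b ≠ 0) (hf : 4 * fn h2 ha ha0 b ≠ 1)
    (ht : 2 * fn h2 ha ha0 b ≠ 1) : b ∈ good F a := by
  obtain ⟨z, v, hbe, hz, hv, -, -, -⟩ := line_data h2 ha ha0 hb hb0
  intro y hy q
  obtain ⟨h, -, -, -⟩ := quad_vanish h2 ha ha0 hb hb0 (f4 F y q) (fun _ _ => jj_comm12 _ _ _ _)
    (fun r hr hr0 => jj_aa h2 hr hr0 y q) rfl hf ht hbe hz hv
  have e : jj a b y q = fn h2 ha ha0 b • jj a a y q + jj a z y q + jj a v y q := by
    conv_lhs => rw [hbe]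
    rw [← f4_apply (F := F), map_add, map_add, map_smul]
    rfl
  rw [e, jj_aa h2 ha ha0, jj_zz h2 ha ha0 hz hy, ← f4_apply (F := F) y q a v, h]
  simp

theorem good_self : a ∈ good F a := by
  intro y _ q
  exact jj_aa h2 ha ha0 y q

/-- If all elements are good for `a` then `J(a, x, y) = 0` for all `x`, `y`. -/
theorem all_of_good (h : good F a = ⊤) (x y q : A) : jj a x y q = 0 := by
  have hg : ∀ x y, a * y = 0 → ∀ q, jj a x y q = 0 := by
    intro x y hy q
    have : x ∈ good F a := by rw [h]; trivial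
    exact this y hy q
  obtain ⟨d, y0, yh, rfl, hy0, hyh⟩ := parts ha y
  obtain ⟨c, x0, xh, rfl, hx0, hxh⟩ := parts ha x
  have e1 : ∀ u w w', jj a u (w + w') q = jj a u w q + jj a u w' q := by
    intro u w w'
    unfold jj
    simp only [add_mul, mul_add]
    abel
  have e2 : ∀ u (s : F) w, jj a u (s • w) q = s • jj a u w q := by
    intro u s w
    unfold jj
    simp only [smul_mul_assoc, mul_smul_comm, smul_add, smul_sub]
  have e3 : ∀ u w w', jj a (w + w') u q = jj a w u q + jj a w' u q := by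
    intro u w w'
    rw [jj_comm23, e1, jj_comm23 a u w, jj_comm23 a u w']
  have e4 : ∀ u (s : F) w, jj a (s • w) u q = s • jj a w u q := by
    intro u s w
    rw [jj_comm23, e2, jj_comm23 a u w]
  have e5 : ∀ u, jj a u a q = 0 := by
    intro u
    rw [jj_comm23]
    exact jj_aa h2 ha ha0 u q
  rw [e1, e1, e2, e5, hg _ y0 hy0, e3, e3, e4, jj_aa h2 ha ha0, jj_comm23 a x0 yh,
    hg _ x0 hx0, jj_hh h2 ha ha0 hxh hyh]
  simp

end good

end AxJ
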