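import Pool.Agent.Helper87.AxS.Solid

/-!
Two axes with Gram value 1/2: the relations that a quadratic map vanishing on axes does not give
directly, obtained from the joint Peirce decomposition of two orthogonal axes.
-/

set_option linter.unusedSectionVars false

namespace AxJ

open Submodule

variable {F : Type*} [Field F] {A : Type*} [NonUnitalNonAssocCommRing A] [Module F A]
  [IsScalarTower F A A] [SMulCommClass F A A]

theorem half_inj (h2 : (2 : F) ≠ 0) {x : A} (h : (1 / 2 : F) • x = 0) : x = 0 :=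
  (smul_eq_zero.1 h).resolve_left (by rw [one_div]; exact inv_ne_zero h2)

theorem half_eq (h2 : (2 : F) ≠ 0) {c : F} (h : c = 1 / 2 * c) : c = 0 := by
  have h3 : 2 * c = 2 * (1 / 2 * c) := by rw [← h]
  have h4 : 2 * (1 / 2 * c) = c := by field_simp
  rw [h4] at h3
  linear_combination h3

/-- The joint Peirce decomposition of two orthogonal axes. -/
theorem joint (h2 : (2 : F) ≠ 0) {a a' : A} (ha : IsHalfAxis F a) (ha' : IsHalfAxis F a')
    (haa : a * a' = 0) (q : A) : ∃ (c c' : F) (w x y z : A),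
      q = c • a + c' • a' + w + x + y + z ∧
      a * w = 0 ∧ a' * w = 0 ∧ a * x = 0 ∧ a' * x = (1 / 2 : F) • x ∧ a * y = (1 / 2 : F) • y ∧
      a' * y = 0 ∧ a * z = (1 / 2 : F) • z ∧ a' * z = (1 / 2 : F) • z := by
  have haa' : a' * a = 0 := by rw [mul_comm]; exact haa
  have h44 := ff_ne h2
  have hc : ∀ s, a' * (a * s) = a * (a' * s) := fun s => axis_comm ha' haa' s
  obtain ⟨c, q0, qh, rfl, h0, hh⟩ := parts ha q
  obtain ⟨c', w, x, rfl, hw, hx⟩ := parts ha' q0
  obtain ⟨d, y, z, rfl, hy, hz⟩ := parts ha' qh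
  have e1 : a * w + a * x = 0 := by
    have : a * (c' • a' + w + x) = a * w + a * x := by
      simp only [mul_add, mul_smul_comm, haa, smul_zero, zero_add]
    rw [← this, h0]
  have e2 : a' * (a * w) = 0 := by rw [hc, hw, mul_zero]
  have e3 : a' * (a * x) = (1 / 2 : F) • (a * x) := by rw [hc, hx, mul_smul_comm]
  have e4 : a * x = 0 := by
    apply half_inj h2
    have : a' * (a * w + a * x) = 0 := by rw [e1, mul_zero]
    rw [mul_add, e2, zero_add, e3] at this
    exact this
  have e5 : a * w = 0 := by rw [e4, add_zero] at e1; exact e1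
  have f1 : a * y + a * z = (1 / 2 : F) • (d • a' + y + z) := by
    rw [← hh]
    simp only [mul_add, mul_smul_comm, haa, smul_zero, zero_add]
  have f2 : a' * (a * y) = 0 := by rw [hc, hy, mul_zero]
  have f3 : a' * (a * z) = (1 / 2 : F) • (a * z) := by rw [hc, hz, mul_smul_comm]
  have f4 : (1 / 2 : F) • (a * z) = (1 / 2 : F) • (d • a' + (1 / 2 : F) • z) := by
    have : a' * (a * y + a * z) = (1 / 2 : F) • (d • a' + (1 / 2 : F) • z) := by
      rw [f1]
      simp only [mul_add, mul_smul_comm, ha'.idem, hy, hz, add_zero]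
    rw [mul_add, f2, zero_add, f3] at this
    exact this
  have f5 : a * z = d • a' + (1 / 2 : F) • z := by
    rw [← sub_eq_zero, ← smul_sub] at f4
    exact sub_eq_zero.1 (half_inj h2 f4)
  have f6 : a' * (a * z) = d • a' + (1 / 4 : F) • z := by
    rw [f5, mul_add, mul_smul_comm, mul_smul_comm, ha'.idem, hz]
    match_scalars <;> field_simp <;> norm_num
  have f7 : d • a' = 0 := by
    apply half_inj h2
    have : (1 / 2 : F) • (d • a') = a' * (a * z) - (1 / 2 : F) • (a * z) := by
      rw [f6, f5]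
      match_scalars <;> field_simp <;> ring
    rw [this, f3, sub_self]
  have f8 : a * z = (1 / 2 : F) • z := by rw [f5, f7, zero_add]
  have f9 : a * y = (1 / 2 : F) • y := by
    rw [f8, f7, zero_add, smul_add] at f1
    exact add_right_cancel f1
  refine ⟨c, c', w, x, y, z, ?_, e5, hw, e4, hx, f9, hy, f8, hz⟩
  rw [f7]
  module

/-- The data of two orthogonal axes with a common 1/2-eigenvector. -/
structure HD (B : A →ₗ[F] A →ₗ[F] F) (a a' v : A) : Prop where
  ha : IsHalfAxis F a
  ha' : IsHalfAxis F a'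
  a0 : a ≠ 0
  a0' : a' ≠ 0
  haa : a * a' = 0
  hv : a * v = (1 / 2 : F) • v
  hv' : a' * v = (1 / 2 : F) • v
  F4 : ∀ p q, jj a v p q + jj a' v p q = 0
  F2 : ∀ q, f2 B q a v + f2 B q a' v = 0
  F3 : ∀ p q, (jj p q a v + jj p q v a) + (jj p q a' v + jj p q v a') = 0
  fro : ∀ x y z, B (x * y) z = B x (y * z)
  sym : ∀ x y, B x y = B y x
  Baa : B a a = 1
  Baa' : B a' a' = 1

theorem HD.symm {B : A →ₗ[F] A →ₗ[F] F} {a a' v : A} (H : HD B a a' v) :
    HD B a' a v where
  ha := H.ha'
  ha' := H.ha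
  a0 := H.a0'
  a0' := H.a0
  haa := by rw [mul_comm]; exact H.haa
  hv := H.hv'
  hv' := H.hv
  F4 := fun p q => by rw [add_comm]; exact H.F4 p q
  F2 := fun q => by rw [add_comm]; exact H.F2 q
  F3 := fun p q => by rw [add_comm]; exact H.F3 p q
  fro := H.fro
  sym := H.sym
  Baa := H.Baa'
  Baa' := H.Baa

/-- Linear maps that vanish on the joint Peirce components vanish. -/
theorem joint_zero (h2 : (2 : F) ≠ 0) {a a' : A} (ha : IsHalfAxis F a) (ha' : IsHalfAxis F a')
    (haa : a * a' = 0) (L : A →ₗ[F] A) (h1 : L a = 0) (h1' : L a' = 0)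
    (hw : ∀ w, a * w = 0 → a' * w = 0 → L w = 0)
    (hx : ∀ x, a * x = 0 → a' * x = (1 / 2 : F) • x → L x = 0)
    (hy : ∀ y, a * y = (1 / 2 : F) • y → a' * y = 0 → L y = 0)
    (hz : ∀ z, a * z = (1 / 2 : F) • z → a' * z = (1 / 2 : F) • z → L z = 0) (q : A) :
    L q = 0 := by
  obtain ⟨c, c', w, x, y, z, rfl, w1, w2, x1, x2, y1, y2, z1, z2⟩ := joint h2 ha ha' haa q
  simp only [map_add, map_smul, h1, h1', hw w w1 w2, hx x x1 x2, hy y y1 y2, hz z z1 z2,
    smul_zero, add_zero]

/-- The form, as a function of the outer arguments. -/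
def gg (a v p q : A) : A := jj p q a v + jj p q v a

theorem gg_comm (a v p q : A) : gg a v p q = gg a v q p := by
  unfold gg
  rw [jj_comm12 p q a v, jj_comm12 p q v a]

section hd
variable (h2 : (2 : F) ≠ 0) {B : A →ₗ[F] A →ₗ[F] F} {a a' v : A} (H : HD B a a' v)
include h2 H

theorem HD.vw {w : A} (w1 : a * w = 0) (w2 : a' * w = 0) : v * w = 0 := by
  have h := H.F4 w a
  have h3 : a * (v * w) = (1 / 2 : F) • (v * w) := by
    rw [mul_comm v w]
    exact mul_zh H.ha w1 H.hv
  have h4 : a' * (v * w) = (1 / 2 : F) • (v * w) := by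
    rw [mul_comm v w]
    exact mul_zh H.ha' w2 H.hv'
  have c1 : w * a = 0 := by rw [mul_comm]; exact w1
  have c2 : w * a' = 0 := by rw [mul_comm]; exact w2
  have c3 : v * a = (1 / 2 : F) • v := by rw [mul_comm]; exact H.hv
  have c4 : (v * w) * a = (1 / 2 : F) • (v * w) := by rw [mul_comm]; exact h3
  have c5 : a' * a = 0 := by rw [mul_comm]; exact H.haa
  have c6 : w * v = v * w := mul_comm _ _
  unfold jj at h
  simp only [c1, c2, H.hv, H.hv', c3, c4, c5, H.ha.idem, smul_mul_assoc, mul_smul_comm, h3, h4,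
    mul_zero, zero_mul, sub_zero, zero_sub, c6] at h
  apply half_inj h2
  apply half_inj h2
  linear_combination (norm := skip) (-(1 / 2 : F)) • h
  match_scalars <;> field_simp <;> ring

theorem HD.wc {w : A} (w1 : a * w = 0) (w2 : a' * w = 0) (q : A) : v * (w * q) = w * (v * q) := by
  have h := H.F4 w q
  have c1 : w * a = 0 := by rw [mul_comm]; exact w1
  have c2 : w * a' = 0 := by rw [mul_comm]; exact w2
  unfold jj at h
  simp only [c1, c2, H.hv, H.hv', H.vw h2 w1 w2, smul_mul_assoc, mul_smul_comm,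
    mul_zero, zero_mul, sub_zero, zero_sub] at h
  rw [← sub_eq_zero]
  linear_combination (norm := skip) h
  match_scalars <;> field_simp <;> ring

theorem HD.K4 (p q : A) : jj a v p q = 0 := by
  have hq : ∀ p, jj a v p q = - jj a' v p q := fun p => eq_neg_of_add_eq_zero_left (H.F4 p q)
  let L : A →ₗ[F] A :=
    { toFun := fun p => jj a v p q
      map_add' := by
        intro x y
        unfold jj
        simp only [add_mul, mul_add]
        abel
      map_smul' := by
        intro c x
        unfold jj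
        simp only [smul_mul_assoc, mul_smul_comm, smul_add, smul_sub, RingHom.id_apply] }
  refine joint_zero h2 H.ha H.ha' H.haa L ?_ ?_ ?_ ?_ ?_ ?_ p
  · change jj a v a q = 0
    rw [jj_comm23]
    exact jj_aa h2 H.ha H.a0 v q
  · change jj a v a' q = 0
    rw [hq, jj_comm23, jj_aa h2 H.ha' H.a0' v q, neg_zero]
  · intro w w1 w2
    change jj a v w q = 0
    have c1 : w * a = 0 := by rw [mul_comm]; exact w1
    unfold jj
    simp only [c1, H.hv, H.vw h2 w1 w2, H.wc h2 w1 w2 q, smul_mul_assoc, mul_smul_comm,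
      mul_zero, zero_mul, sub_zero, zero_sub, sub_self, add_zero]
  · intro x x1 x2
    change jj a v x q = 0
    rw [hq, jj_hh h2 H.ha' H.a0' H.hv' x2 q, neg_zero]
  · intro y y1 y2
    exact jj_hh h2 H.ha H.a0 H.hv y1 q
  · intro z z1 z2
    exact jj_hh h2 H.ha H.a0 H.hv z1 q

theorem HD.Bz {w : A} (w1 : a * w = 0) : B a w = 0 := by
  have h := H.fro a a w
  rw [H.ha.idem, w1, map_zero] at h
  exact h

theorem HD.Bz' {w : A} (w1 : a' * w = 0) : B a' w = 0 := by
  have h := H.fro a' a' w
  rw [H.ha'.idem, w1, map_zero] at h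
  exact h

theorem HD.Bh {y : A} (w1 : a * y = (1 / 2 : F) • y) : B a y = 0 := by
  have h := H.fro a a y
  rw [H.ha.idem, w1, map_smul, smul_eq_mul] at h
  exact half_eq h2 h

theorem HD.Bh' {y : A} (w1 : a' * y = (1 / 2 : F) • y) : B a' y = 0 := by
  have h := H.fro a' a' y
  rw [H.ha'.idem, w1, map_smul, smul_eq_mul] at h
  exact half_eq h2 h

theorem HD.Bv {w : A} (w1 : a * w = 0) : B v w = 0 := by
  have h := H.fro v a w
  rw [w1, map_zero, mul_comm v a, H.hv, map_smul, LinearMap.smul_apply, smul_eq_mul] at h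
  exact (mul_eq_zero.1 h).resolve_left (by rw [one_div]; exact inv_ne_zero h2)

theorem HD.Bv' {w : A} (w1 : a' * w = 0) : B v w = 0 := by
  have h := H.fro v a' w
  rw [w1, map_zero, mul_comm v a', H.hv', map_smul, LinearMap.smul_apply, smul_eq_mul] at h
  exact (mul_eq_zero.1 h).resolve_left (by rw [one_div]; exact inv_ne_zero h2)

theorem HD.K2 (q : A) : f2 B q a v = 0 := by
  have h44 := ff_ne h2
  let L : A →ₗ[F] A :=
    { toFun := fun q => f2 B q a v
      map_add' := by
        intro x y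
        simp only [f2_apply, mul_add, map_add]
        match_scalars <;> ring
      map_smul' := by
        intro c x
        simp only [f2_apply, mul_smul_comm, map_smul, RingHom.id_apply, smul_eq_mul]
        match_scalars <;> ring }
  have hva : v * a = (1 / 2 : F) • v := by rw [mul_comm]; exact H.hv
  have hva' : v * a' = (1 / 2 : F) • v := by rw [mul_comm]; exact H.hv'
  refine joint_zero h2 H.ha H.ha' H.haa L ?_ ?_ ?_ ?_ ?_ ?_ q
  · change f2 B a a v = 0
    have : B v a = 0 := by rw [H.sym, H.Bh h2 H.hv]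
    rw [f2_apply, H.Baa, this, H.ha.idem, H.hv, smul_mul_assoc, hva, mul_smul_comm, H.hv]
    match_scalars <;> field_simp <;> ring
  · change f2 B a' a v = 0
    have : B v a' = 0 := by rw [H.sym, H.Bh' h2 H.hv']
    rw [f2_apply, H.Bz h2 H.haa, this, H.haa, H.hv, smul_mul_assoc, hva', mul_smul_comm, H.hv,
      mul_zero]
    match_scalars <;> field_simp <;> ring
  · intro w w1 w2
    change f2 B w a v = 0
    rw [f2_apply, H.Bz h2 w1, H.Bv h2 w1, H.vw h2 w1 w2, H.hv, smul_mul_assoc, w1,
      H.vw h2 w1 w2]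
    simp
  · intro x x1 x2
    change f2 B x a v = 0
    have : a * (v * x) = (1 / 2 : F) • (v * x) := by
      rw [mul_comm v x]
      exact mul_zh H.ha x1 H.hv
    rw [f2_apply, H.Bz h2 x1, H.Bv h2 x1, H.hv, smul_mul_assoc, x1, this]
    simp
  · intro y y1 y2
    change f2 B y a v = 0
    have h := H.F2 y
    have e : a' * (v * y) = (1 / 2 : F) • (v * y) := by
      rw [mul_comm v y]
      exact mul_zh H.ha' y2 H.hv'
    have e2 : f2 B y a' v = 0 := by
      rw [f2_apply, H.Bz' h2 y2, H.Bv' h2 y2, H.hv', smul_mul_assoc, y2, e]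
      simp
    rw [e2, add_zero] at h
    exact h
  · intro z z1 z2
    change f2 B z a v = 0
    have h := H.F2 z
    obtain ⟨c, w0, hc, hw0⟩ := mul_hh H.ha H.hv z1
    obtain ⟨c', w0', hc', hw0'⟩ := mul_hh H.ha' H.hv' z2
    have e1 : f2 B z a v = (c - 1 / 2 * B v z) • a := by
      rw [f2_apply, H.Bh h2 z1, H.hv, smul_mul_assoc, z1, mul_smul_comm]
      have : a * (v * z) = c • a := by
        rw [hc, mul_add, mul_smul_comm, H.ha.idem, hw0, add_zero]
      rw [this]
      module
    have e2 : f2 B z a' v = (c' - 1 / 2 * B v z) • a' := by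
      rw [f2_apply, H.Bh' h2 z2, H.hv', smul_mul_assoc, z2, mul_smul_comm]
      have : a' * (v * z) = c' • a' := by
        rw [hc', mul_add, mul_smul_comm, H.ha'.idem, hw0', add_zero]
      rw [this]
      module
    rw [e1, e2] at h
    rw [e1]
    have h3 := congrArg (fun s => a * s) h
    simp only [mul_add, mul_smul_comm, H.ha.idem, H.haa, smul_zero, add_zero, mul_zero] at h3
    exact h3

/-- The second identity in the form used below. -/
theorem HD.R (q : A) : a * (v * q) + v * (a * q) =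
    (1 / 2 : F) • (v * q) + (1 / 2 * B a q) • v + (1 / 2 * B v q) • a := by
  have h := H.K2 h2 q
  rw [f2_apply, H.hv, smul_mul_assoc] at h
  linear_combination (norm := skip) h
  match_scalars <;> ring

/-- The third quadratic form, reduced. -/
theorem HD.S (p q : A) : jj p q a v + jj p q v a =
    (1 / 2 : F) • (v * (p * q)) + (2 : F) • ((a * p) * (v * q)) + (2 : F) • ((v * p) * (a * q)) -
      (1 / 2 : F) • (p * (v * q)) - (1 / 2 : F) • (q * (v * p)) -
      (1 / 2 : F) • (B a (p * q) • v + B v (p * q) • a + B a q • (v * p) + B v q • (a * p) +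
        B a p • (v * q) + B v p • (a * q)) := by
  have r1 := H.R h2 (p * q)
  have r2 := congrArg (fun s => p * s) (H.R h2 q)
  have r3 := congrArg (fun s => q * s) (H.R h2 p)
  unfold jj
  simp only [mul_add, mul_smul_comm, smul_mul_assoc, H.hv, mul_comm v a, mul_comm p a,
    mul_comm q a, mul_comm p v, mul_comm q v, mul_comm q p] at r1 r2 r3 ⊢
  have c1 : (v * q) * (a * p) = (a * p) * (v * q) := mul_comm _ _
  have c2 : (a * q) * (v * p) = (v * p) * (a * q) := mul_comm _ _
  have c3 : (a * p) * q = q * (a * p) := mul_comm _ _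
  have c4 : (a * q) * p = p * (a * q) := mul_comm _ _
  have c5 : (v * p) * q = q * (v * p) := mul_comm _ _
  have c6 : (v * q) * p = p * (v * q) := mul_comm _ _
  have c7 : (p * q) * a = a * (p * q) := mul_comm _ _
  have c8 : (p * q) * v = v * (p * q) := mul_comm _ _
  have c9 : (a * q) * v = v * (a * q) := mul_comm _ _
  have c10 : (a * p) * v = v * (a * p) := mul_comm _ _
  have c11 : (v * q) * a = a * (v * q) := mul_comm _ _
  have c12 : (v * p) * a = a * (v * p) := mul_comm _ _
  simp only [c1, c2, c3, c4, c5, c6, c7, c8, c9, c10, c11, c12] at r1 r2 r3 ⊢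
  linear_combination (norm := skip) -r1 - r2 - r3
  match_scalars <;> field_simp <;> ring

theorem HD.gsum (p q : A) : gg a v p q = -gg a' v p q := eq_neg_of_add_eq_zero_left (H.F3 p q)

theorem HD.G1 (q : A) : gg a v a q = 0 := by
  unfold gg
  have hva : v * a = (1 / 2 : F) • v := by rw [mul_comm]; exact H.hv
  have r := H.R h2 q
  have b1 : B a (a * q) = B a q := by rw [← H.fro, H.ha.idem]
  have b2 : B v (a * q) = 1 / 2 * B v q := by
    rw [← H.fro, hva, map_smul, LinearMap.smul_apply, smul_eq_mul]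
  have b3 : B v a = 0 := by rw [H.sym, H.Bh h2 H.hv]
  have c1 : q * (v * a) = (1 / 2 : F) • (v * q) := by rw [hva, mul_smul_comm, mul_comm q v]
  rw [H.S h2, b1, b2, b3, H.Baa, c1, H.ha.idem, hva]
  simp only [smul_mul_assoc]
  linear_combination (norm := skip) (3 / 2 : F) • r
  match_scalars <;> field_simp <;> ring

theorem HD.G1' (q : A) : gg a v a' q = 0 := by
  rw [H.gsum h2, H.symm.G1 h2, neg_zero]

theorem HD.G2 {w : A} (w1 : a * w = 0) (w2 : a' * w = 0) (q : A) : gg a v w q = 0 := by
  unfold gg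
  have hw := H.vw h2 w1 w2
  have b1 : B a (w * q) = 0 := by rw [← H.fro, w1, map_zero, LinearMap.zero_apply]
  have b2 : B v (w * q) = 0 := by rw [← H.fro, hw, map_zero, LinearMap.zero_apply]
  rw [H.S h2, H.wc h2 w1 w2 q, hw, w1, b1, b2, H.Bz h2 w1, H.Bv h2 w1]
  simp

theorem HD.az (z : A) (z1 : a * z = (1 / 2 : F) • z) : a * (v * z) = (1 / 2 * B v z) • a := by
  have r := H.R h2 z
  rw [H.Bh h2 z1, z1, mul_smul_comm] at r
  linear_combination (norm := skip) r
  match_scalars <;> ring

theorem HD.vz {z : A} (z1 : a * z = (1 / 2 : F) • z) (z2 : a' * z = (1 / 2 : F) • z) :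
    v * z = (1 / 2 * B v z) • (a + a') := by
  have h44 := ff_ne h2
  have h := H.G1' h2 z
  unfold gg at h
  have hva : v * a' = (1 / 2 : F) • v := by rw [mul_comm]; exact H.hv'
  have b3 : B v a' = 0 := by rw [H.sym, H.Bh' h2 H.hv']
  have c1 : z * (v * a') = (1 / 2 : F) • (v * z) := by rw [hva, mul_smul_comm, mul_comm z v]
  have e2 := H.symm.az h2 z z2
  rw [H.S h2, b3, H.Bz h2 H.haa, H.Bh h2 z1, c1, H.haa, z1, z2, hva, mul_smul_comm, e2,
    map_smul, map_smul, H.Bh h2 z1] at h
  simp only [smul_mul_assoc, mul_smul_comm, smul_eq_mul, zero_mul, mul_zero] at h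
  have h5 : v * z - (1 / 2 * B v z) • (a + a') = 0 := by
    linear_combination (norm := skip) (2 : F) • h
    match_scalars <;> field_simp <;> ring
  exact sub_eq_zero.1 h5

/-- Products of two joint half vectors. -/
theorem HD.vzz {z z' : A} (z1 : a * z = (1 / 2 : F) • z) (z2 : a' * z = (1 / 2 : F) • z)
    (z1' : a * z' = (1 / 2 : F) • z') (z2' : a' * z' = (1 / 2 : F) • z') :
    v * (z * z') = (1 / 2 * B z z') • v := by
  obtain ⟨c, u, hc, hu⟩ := mul_hh H.ha z1 z1'
  obtain ⟨c', u', hc', hu'⟩ := mul_hh H.ha' z2 z2'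
  have haa' : a' * a = 0 := by rw [mul_comm]; exact H.haa
  have e1 : c = 1 / 2 * B z z' := by
    have h := H.fro a z z'
    rw [z1, map_smul, LinearMap.smul_apply, hc, map_add, map_smul, H.Baa, H.Bz h2 hu] at h
    simp only [smul_eq_mul, mul_one, add_zero] at h
    exact h.symm
  have e1' : c' = 1 / 2 * B z z' := by
    have h := H.fro a' z z'
    rw [z2, map_smul, LinearMap.smul_apply, hc', map_add, map_smul, H.Baa', H.Bz' h2 hu'] at h
    simp only [smul_eq_mul, mul_one, add_zero] at h
    exact h.symm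
  have f1 : a * (z * z') = c • a := by
    rw [hc, mul_add, mul_smul_comm, H.ha.idem, hu, add_zero]
  have f2 : a' * (z * z') = c' • a' := by
    rw [hc', mul_add, mul_smul_comm, H.ha'.idem, hu', add_zero]
  have g1 : a * (z * z' - c • a - c' • a') = 0 := by
    rw [mul_sub, mul_sub, mul_smul_comm, mul_smul_comm, f1, H.haa, H.ha.idem]
    simp
  have g2 : a' * (z * z' - c • a - c' • a') = 0 := by
    rw [mul_sub, mul_sub, mul_smul_comm, mul_smul_comm, f2, haa', H.ha'.idem]
    simp
  have h := H.vw h2 g1 g2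
  have hva : v * a = (1 / 2 : F) • v := by rw [mul_comm]; exact H.hv
  have hva' : v * a' = (1 / 2 : F) • v := by rw [mul_comm]; exact H.hv'
  rw [mul_sub, mul_sub, mul_smul_comm, mul_smul_comm, hva, hva', e1, e1'] at h
  linear_combination (norm := skip) h
  match_scalars <;> field_simp <;> ring

theorem HD.G3 {z z' : A} (z1 : a * z = (1 / 2 : F) • z) (z2 : a' * z = (1 / 2 : F) • z)
    (z1' : a * z' = (1 / 2 : F) • z') (z2' : a' * z' = (1 / 2 : F) • z') :
    gg a v z z' = 0 := by
  have h44 := ff_ne h2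
  unfold gg
  have b1 : B a (z * z') = 1 / 2 * B z z' := by
    rw [← H.fro, z1, map_smul, LinearMap.smul_apply, smul_eq_mul]
  have b2 : B v (z * z') = 0 := by
    rw [← H.fro, H.vz h2 z1 z2, map_smul, map_add, LinearMap.smul_apply, LinearMap.add_apply,
      H.Bh h2 z1', H.Bh' h2 z2']
    simp
  have k1 : z * (a + a') = z := by
    rw [mul_add, mul_comm z a, mul_comm z a', z1, z2, ← add_smul]
    have : (1 / 2 : F) + 1 / 2 = 1 := by field_simp; norm_num
    rw [this, one_smul]
  have k2 : z' * (a + a') = z' := by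
    rw [mul_add, mul_comm z' a, mul_comm z' a', z1', z2', ← add_smul]
    have : (1 / 2 : F) + 1 / 2 = 1 := by field_simp; norm_num
    rw [this, one_smul]
  have d1 : z * (v * z') = (1 / 2 * B v z') • z := by
    rw [H.vz h2 z1' z2', mul_smul_comm, k1]
  have d2 : z' * (v * z) = (1 / 2 * B v z) • z' := by
    rw [H.vz h2 z1 z2, mul_smul_comm, k2]
  have d3 : (v * z) * z' = (1 / 2 * B v z) • z' := by rw [mul_comm]; exact d2
  rw [H.S h2, H.vzz h2 z1 z2 z1' z2', b1, b2, H.Bh h2 z1, H.Bh h2 z1', z1, z1']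
  simp only [smul_mul_assoc, mul_smul_comm, d1, d2, d3]
  match_scalars <;> field_simp <;> ring

theorem HD.ay {y : A} (y1 : a * y = (1 / 2 : F) • y) (y2 : a' * y = 0) : a * (v * y) = 0 := by
  rw [H.az h2 y y1, H.Bv' h2 y2]
  simp

theorem HD.G4 {z y : A} (z1 : a * z = (1 / 2 : F) • z) (z2 : a' * z = (1 / 2 : F) • z)
    (y1 : a * y = (1 / 2 : F) • y) (y2 : a' * y = 0) : gg a v z y = 0 := by
  have h44 := ff_ne h2
  have hg := H.gsum h2 z y
  have byz : B z y = 0 := by
    have h := H.fro z a' y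
    rw [y2, map_zero, mul_comm z a', z2, map_smul, LinearMap.smul_apply, smul_eq_mul] at h
    exact (mul_eq_zero.1 h).resolve_left (by rw [one_div]; exact inv_ne_zero h2)
  have b1 : B a (z * y) = 0 := by
    rw [← H.fro, z1, map_smul, LinearMap.smul_apply, byz, smul_zero]
  have b1' : B a' (z * y) = 0 := by
    rw [← H.fro, z2, map_smul, LinearMap.smul_apply, byz, smul_zero]
  have b2 : B v (z * y) = 0 := by
    rw [← H.fro, H.vz h2 z1 z2, map_smul, map_add, LinearMap.smul_apply, LinearMap.add_apply,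
      H.Bh h2 y1, H.Bz' h2 y2]
    simp
  have k2 : y * (a + a') = (1 / 2 : F) • y := by
    rw [mul_add, mul_comm y a, mul_comm y a', y1, y2, add_zero]
  have d2 : y * (v * z) = (1 / 4 * B v z) • y := by
    rw [H.vz h2 z1 z2, mul_smul_comm, k2, smul_smul]
    congr 1
    field_simp
    ring
  have d3 : (v * z) * y = (1 / 4 * B v z) • y := by rw [mul_comm]; exact d2
  have e : gg a v z y = gg a' v z y := by
    unfold gg
    rw [H.S h2, H.symm.S h2, b1, b1', b2, H.Bh h2 z1, H.Bh h2 y1, H.Bh' h2 z2, H.Bz' h2 y2,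
      H.Bv' h2 y2, z1, y1, z2, y2]
    simp only [smul_mul_assoc, mul_smul_comm, d2, d3, mul_zero]
    match_scalars <;> field_simp <;> ring
  rw [← e] at hg
  have h3 : (2 : F) • gg a v z y = 0 := by
    rw [two_smul]
    nth_rewrite 1 [hg]
    simp
  exact (smul_eq_zero.1 h3).resolve_left h2

/-- Half vectors for `a` killed by `a'`. -/
theorem HD.G5 {y y' : A} (y1 : a * y = (1 / 2 : F) • y) (y2 : a' * y = 0)
    (y1' : a * y' = (1 / 2 : F) • y') (y2' : a' * y' = 0) : gg a v y y' = 0 := by
  have h44 := ff_ne h2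
  obtain ⟨c, u, hc, hu⟩ := mul_hh H.ha y1 y1'
  have haa' : a' * a = 0 := by rw [mul_comm]; exact H.haa
  have hva : v * a = (1 / 2 : F) • v := by rw [mul_comm]; exact H.hv
  have g2 : a' * (y * y') = 0 := mul_zz H.ha' y2 y2'
  have g3 : a' * u = 0 := by
    have : u = y * y' - c • a := by rw [hc]; module
    rw [this, mul_sub, mul_smul_comm, g2, haa', smul_zero, sub_zero]
  have vyy : v * (y * y') = (1 / 2 * c) • v := by
    rw [hc, mul_add, mul_smul_comm, hva, H.vw h2 hu g3, add_zero, smul_smul, mul_comm c]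
  have b1 : B a (y * y') = c := by
    rw [hc, map_add, map_smul, H.Baa, H.Bz h2 hu]
    simp
  have e1 := H.ay h2 y1 y2
  have e2 : a' * (v * y) = (1 / 2 : F) • (v * y) := by
    rw [mul_comm v y]
    exact mul_zh H.ha' y2 H.hv'
  have b2 : B v (y * y') = 0 := by
    rw [← H.fro]
    have h := H.fro (v * y) a y'
    rw [mul_comm (v * y) a, e1, map_zero, LinearMap.zero_apply, y1', map_smul, smul_eq_mul] at h
    exact (mul_eq_zero.1 h.symm).resolve_left (by rw [one_div]; exact inv_ne_zero h2)
  have k := H.symm.K4 h2 y y'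
  have ya : y * a' = 0 := by rw [mul_comm]; exact y2
  have e3 : a' * (v * y * y') = (1 / 2 : F) • (v * y * y') := by
    rw [mul_comm (v * y) y']
    exact mul_zh H.ha' y2' e2
  unfold jj at k
  rw [H.hv', y2', ya, e3] at k
  simp only [smul_mul_assoc, mul_smul_comm, mul_zero, zero_mul, vyy] at k
  have c1 : y' * (v * y) = v * y * y' := mul_comm _ _
  unfold gg
  rw [H.S h2, vyy, b1, b2, H.Bh h2 y1, H.Bh h2 y1', H.Bv' h2 y2, H.Bv' h2 y2', y1, y1']
  simp only [smul_mul_assoc, mul_smul_comm, c1]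
  linear_combination (norm := skip) -k
  match_scalars <;> field_simp <;> ring

theorem HD.G6 {y x : A} (y1 : a * y = (1 / 2 : F) • y) (y2 : a' * y = 0)
    (x1 : a * x = 0) (x2 : a' * x = (1 / 2 : F) • x) : gg a v y x = 0 := by
  have h44 := ff_ne h2
  have yx1 : a * (y * x) = (1 / 2 : F) • (y * x) := by
    rw [mul_comm y x]
    exact mul_zh H.ha x1 y1
  have yx2 : a' * (y * x) = (1 / 2 : F) • (y * x) := mul_zh H.ha' y2 x2
  have vyx := H.vz h2 yx1 yx2
  have b1 : B a (y * x) = 0 := H.Bh h2 yx1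
  have e1 := H.ay h2 y1 y2
  have f1 := H.symm.ay h2 x2 x1
  have f2' : a * (v * x) = (1 / 2 : F) • (v * x) := by
    rw [mul_comm v x]
    exact mul_zh H.ha x1 H.hv
  have k := H.K4 h2 x y
  obtain ⟨c, u, hc, hu⟩ := mul_hh H.ha f2' y1
  have g1 : a * (x * (v * y)) = 0 := mul_zz H.ha x1 e1
  have g2 : a * (v * x * y) = c • a := by
    rw [hc, mul_add, mul_smul_comm, H.ha.idem, hu, add_zero]
  have xa : x * a = 0 := by rw [mul_comm]; exact x1
  have xy : x * y = y * x := mul_comm _ _
  unfold jj at k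
  rw [H.hv, y1, xa, xy, g2] at k
  simp only [smul_mul_assoc, mul_smul_comm, mul_zero, zero_mul, vyx] at k
  have k2 := congrArg (fun s => a * s) k
  simp only [mul_add, mul_sub, mul_smul_comm, mul_zero, g1, g2, H.haa, H.ha.idem] at k2
  have hs : (1 / 2 * B v (y * x)) • a - (1 / 2 * (2 * c)) • a = 0 := by
    linear_combination (norm := skip) (2 : F) • k2
    match_scalars <;> field_simp <;> ring
  have c1 : y * (v * x) = v * x * y := mul_comm _ _
  unfold gg
  rw [H.S h2, vyx, b1, H.Bh h2 y1, H.Bv h2 x1, H.Bz h2 x1, H.Bv' h2 y2, y1, x1]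
  simp only [smul_mul_assoc, mul_smul_comm, mul_zero, zero_mul, c1]
  linear_combination (norm := skip) k - hs
  match_scalars <;> field_simp <;> ring

theorem HD.K3 (p q : A) : gg a v p q = 0 := by
  let L : A → A →ₗ[F] A := fun p =>
    { toFun := fun q => gg a v p q
      map_add' := by
        intro x y
        unfold gg jj
        simp only [add_mul, mul_add]
        abel
      map_smul' := by
        intro c x
        unfold gg jj
        simp only [smul_mul_assoc, mul_smul_comm, smul_add, smul_sub, RingHom.id_apply] }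
  have hs : ∀ p q, gg a' v p q = 0 → gg a v p q = 0 := fun p q h => by
    rw [H.gsum h2, h, neg_zero]
  refine joint_zero h2 H.ha H.ha' H.haa (L p) ?_ ?_ ?_ ?_ ?_ ?_ q
  · change gg a v p a = 0
    rw [gg_comm]
    exact H.G1 h2 p
  · change gg a v p a' = 0
    rw [gg_comm]
    exact H.G1' h2 p
  · intro w w1 w2
    change gg a v p w = 0
    rw [gg_comm]
    exact H.G2 h2 w1 w2 p
  · intro x x1 x2
    change gg a v p x = 0
    rw [gg_comm]
    refine joint_zero h2 H.ha H.ha' H.haa (L x) ?_ ?_ ?_ ?_ ?_ ?_ p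
    · change gg a v x a = 0
      rw [gg_comm]
      exact H.G1 h2 x
    · change gg a v x a' = 0
      rw [gg_comm]
      exact H.G1' h2 x
    · intro w w1 w2
      change gg a v x w = 0
      rw [gg_comm]
      exact H.G2 h2 w1 w2 x
    · intro x' x1' x2'
      exact hs _ _ (H.symm.G5 h2 x2 x1 x2' x1')
    · intro y y1 y2
      change gg a v x y = 0
      rw [gg_comm]
      exact H.G6 h2 y1 y2 x1 x2
    · intro z z1 z2
      change gg a v x z = 0
      rw [gg_comm]
      exact hs _ _ (H.symm.G4 h2 z2 z1 x2 x1)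
  · intro y y1 y2
    change gg a v p y = 0
    rw [gg_comm]
    refine joint_zero h2 H.ha H.ha' H.haa (L y) ?_ ?_ ?_ ?_ ?_ ?_ p
    · change gg a v y a = 0
      rw [gg_comm]
      exact H.G1 h2 y
    · change gg a v y a' = 0
      rw [gg_comm]
      exact H.G1' h2 y
    · intro w w1 w2
      change gg a v y w = 0
      rw [gg_comm]
      exact H.G2 h2 w1 w2 y
    · intro x x1 x2
      exact H.G6 h2 y1 y2 x1 x2
    · intro y' y1' y2'
      exact H.G5 h2 y1 y2 y1' y2'
    · intro z z1 z2
      change gg a v y z = 0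
      rw [gg_comm]
      exact H.G4 h2 z1 z2 y1 y2
  · intro z z1 z2
    change gg a v p z = 0
    rw [gg_comm]
    refine joint_zero h2 H.ha H.ha' H.haa (L z) ?_ ?_ ?_ ?_ ?_ ?_ p
    · change gg a v z a = 0
      rw [gg_comm]
      exact H.G1 h2 z
    · change gg a v z a' = 0
      rw [gg_comm]
      exact H.G1' h2 z
    · intro w w1 w2
      change gg a v z w = 0
      rw [gg_comm]
      exact H.G2 h2 w1 w2 z
    · intro x x1 x2
      exact hs _ _ (H.symm.G4 h2 z2 z1 x2 x1)
    · intro y y1 y2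
      exact H.G4 h2 z1 z2 y1 y2
    · intro z' z1' z2'
      exact H.G3 h2 z1 z2 z1' z2'

end hd

end AxJ
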