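import Pool.Agent.Helper87.Ax.Tau

/-!
The linearized Jordan identity in algebras generated by half axes: the operator `jj`, and its
values when one of the arguments is an axis.
-/

namespace AxJ

open Submodule

variable {F : Type*} [Field F] {A : Type*} [NonUnitalNonAssocCommRing A] [Module F A]
  [IsScalarTower F A A] [SMulCommClass F A A]

/-- The linearized Jordan identity. -/
def jj (x y z w : A) : A :=
  (x * y) * (z * w) - z * ((x * y) * w) + ((y * z) * (x * w) - x * ((y * z) * w)) +
    ((z * x) * (y * w) - y * ((z * x) * w))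

omit [Module F A] [IsScalarTower F A A] [SMulCommClass F A A] in
theorem jj_comm12 (x y z w : A) : jj x y z w = jj y x z w := by
  unfold jj
  rw [mul_comm y x, mul_comm x z, mul_comm z y]
  abel

omit [Module F A] [IsScalarTower F A A] [SMulCommClass F A A] in
theorem jj_comm23 (x y z w : A) : jj x y z w = jj x z y w := by
  unfold jj
  rw [mul_comm z y, mul_comm y x, mul_comm x z]
  abel

variable (F) in
/-- `jj` as a bilinear map in the first two arguments. -/
def f4 (p q : A) : A →ₗ[F] A →ₗ[F] A :=
  LinearMap.mk₂ F (fun x y => jj x y p q)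
    (by intro x x' y; unfold jj; simp only [add_mul, mul_add]; abel)
    (by intro c x y; unfold jj; simp only [smul_mul_assoc, mul_smul_comm, smul_add, smul_sub])
    (by intro x y y'; unfold jj; simp only [add_mul, mul_add]; abel)
    (by intro c x y; unfold jj; simp only [smul_mul_assoc, mul_smul_comm, smul_add, smul_sub])

theorem f4_apply (p q x y : A) : f4 F p q x y = jj x y p q := rfl

variable (F) in
/-- `jj` as a bilinear map in the last two arguments. -/
def f3 (p q : A) : A →ₗ[F] A →ₗ[F] A :=
  LinearMap.mk₂ F (fun x y => jj p q x y)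
    (by intro x x' y; unfold jj; simp only [add_mul, mul_add]; abel)
    (by intro c x y; unfold jj; simp only [smul_mul_assoc, mul_smul_comm, smul_add, smul_sub])
    (by intro x y y'; unfold jj; simp only [add_mul, mul_add]; abel)
    (by intro c x y; unfold jj; simp only [smul_mul_assoc, mul_smul_comm, smul_add, smul_sub])

theorem f3_apply (p q x y : A) : f3 F p q x y = jj p q x y := rfl

section axis
variable (h2 : (2 : F) ≠ 0) {a : A} (ha : IsHalfAxis F a) (h0 : a ≠ 0)
include h2 ha h0

/-- `J(a, a, p) = 0`. -/
theorem jj_aa (p q : A) : jj a a p q = 0 := by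
  have i1 := id1 h2 ha h0 p q
  have i2 := id2 h2 ha h0 p q
  have h4 : (4 : F) ≠ 0 := by
    have : (4 : F) = 2 * 2 := by norm_num
    rw [this]
    exact mul_ne_zero h2 h2
  have key : (4 : F) • jj a a p q = 0 := by
    have e1 : (a * p) * q = q * (a * p) := mul_comm _ _
    have e2 : p * a = a * p := mul_comm _ _
    unfold jj
    rw [ha.idem, e2, e1]
    linear_combination (norm := skip) (2 : F) • i2 - (2 : F) • i1
    match_scalars <;> ring
  exact (smul_eq_zero.1 key).resolve_left h4

/-- `J(p, q, a) a = 0`. -/
theorem jj_pa (p q : A) : jj p q a a = 0 := by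
  have i2 := id2 h2 ha h0 p q
  have s1 := sq_eq h2 ha h0 (p * q)
  have s2 := sq_eq h2 ha h0 p
  have s3 := sq_eq h2 ha h0 q
  have e1 : q * a = a * q := mul_comm _ _
  have e2 : p * a = a * p := mul_comm _ _
  have e3 : (p * q) * a = a * (p * q) := mul_comm _ _
  have e4 : (a * q) * a = a * (a * q) := mul_comm _ _
  have e5 : (a * p) * a = a * (a * p) := mul_comm _ _
  have e6 : (a * q) * (a * p) = (a * p) * (a * q) := mul_comm _ _
  unfold jj
  rw [e1, e2, ha.idem, e4, e5, e6, e3, s1, s2, s3]
  have e7 : p * a = a * p := mul_comm _ _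
  have e8 : q * a = a * q := mul_comm _ _
  simp only [mul_add, mul_smul_comm, e7, e8]
  linear_combination (norm := skip) (1 / 2 : F) • i2
  match_scalars <;> field_simp <;> ring

theorem jj_zz {x y : A} (hx : a * x = 0) (hy : a * y = 0) (q : A) : jj a x y q = 0 := by
  unfold jj
  have h3 := axis_comm ha (mul_zz ha hx hy) q
  rw [mul_comm y a, hx, hy, h3]
  simp

theorem jj_hh {x y : A} (hx : a * x = (1 / 2 : F) • x) (hy : a * y = (1 / 2 : F) • y) (q : A) :
    jj a x y q = 0 := by
  obtain ⟨w, w0, hw, hw0⟩ := mul_hh ha hx hy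
  unfold jj
  have h3 := axis_comm ha hw0 q
  rw [mul_comm y a, hx, hy, hw]
  simp only [smul_mul_assoc, mul_smul_comm, add_mul, mul_add, h3]
  abel

end axis

end AxJ
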