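import Pool.Agent.Helper87.AxS.Jop

/-!
The algebra generated by two half axes, and the vanishing of quadratic maps on its axes.
-/

namespace AxJ

open Submodule

variable {F : Type*} [Field F] {A : Type*} [NonUnitalNonAssocCommRing A] [Module F A]
  [IsScalarTower F A A] [SMulCommClass F A A]

theorem ff_ne (h2 : (2 : F) ≠ 0) : (4 : F) ≠ 0 := by
  have : (4 : F) = 2 * 2 := by norm_num
  rw [this]
  exact mul_ne_zero h2 h2

/-- The components of `A_+` and `A_-` are independent. -/
theorem sep (h2 : (2 : F) ≠ 0) {a : A} (ha : IsHalfAxis F a) {c : F} {x0 xh : A}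
    (h0 : a * x0 = 0) (hh : a * xh = (1 / 2 : F) • xh) (h : c • a + x0 = xh) :
    c • a = 0 ∧ x0 = 0 ∧ xh = 0 := by
  have e1 : a * (c • a + x0) = c • a := by
    rw [mul_add, mul_smul_comm, ha.idem, h0, add_zero]
  have e2 : c • a = (1 / 2 : F) • xh := by
    rw [← e1, h, hh]
  have e3 : a * (c • a) = c • a := by rw [mul_smul_comm, ha.idem]
  have e4 : c • a = (1 / 2 : F) • (c • a) := by
    conv_lhs => rw [← e3]
    rw [e2, mul_smul_comm, hh, smul_smul]
  have e5 : c • a = 0 := by
    have : (1 / 2 : F) • (c • a) = 0 := by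
      have h5 : (1 / 2 : F) • (c • a) = c • a - (1 / 2 : F) • (c • a) := by
        match_scalars
        field_simp
        ring
      rw [h5, sub_eq_zero]
      exact e4
    rwa [smul_eq_zero_iff_right (by rw [one_div]; exact inv_ne_zero h2)] at this
  have e6 : xh = 0 := by
    rw [e5] at e2
    exact (smul_eq_zero.1 e2.symm).resolve_left (by rw [one_div]; exact inv_ne_zero h2)
  refine ⟨e5, ?_, e6⟩
  rw [e5, e6, zero_add] at h
  exact h

section line
variable (h2 : (2 : F) ≠ 0) {a b : A} (ha : IsHalfAxis F a) (ha0 : a ≠ 0)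
  (hb : IsHalfAxis F b) (hb0 : b ≠ 0)
include hb hb0

/-- The structure of the algebra generated by two axes. -/
theorem line_data : ∃ z v : A, b = fn h2 ha ha0 b • a + z + v ∧ a * z = 0 ∧
    a * v = (1 / 2 : F) • v ∧ z * z = (1 - fn h2 ha ha0 b) • z ∧
    v * v = (fn h2 ha ha0 b * (1 - fn h2 ha ha0 b)) • a + fn h2 ha ha0 b • z ∧
    z * v = (1 / 2 * (1 - fn h2 ha ha0 b)) • v := by
  have h4 := ff_ne h2
  obtain ⟨z, v, hbe, hz, hv⟩ := fn_isGram h2 ha ha0 b
  obtain ⟨w, w0, hw, hw0⟩ := mul_hh ha hv hv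
  have hs := fn_symm h2 ha ha0 hb hb0
  have hsp := fn_spec h2 hb hb0 a
  rw [← hs] at hsp
  have hbb := hb.idem
  generalize fn h2 ha ha0 b = φ at *
  have hzv : a * (z * v) = (1 / 2 : F) • (z * v) := mul_zh ha hz hv
  have e1 : z * a = 0 := by rw [mul_comm]; exact hz
  have e2 : v * a = (1 / 2 : F) • v := by rw [mul_comm]; exact hv
  have e3 : v * z = z * v := mul_comm _ _
  have hba : b * a = φ • a + (1 / 2 : F) • v := by
    conv_lhs => rw [hbe]
    simp only [add_mul, smul_mul_assoc, ha.idem, e1, e2, add_zero]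
  have hbba : b * (b * a) = (φ * φ) • a + (3 / 4 * φ) • v + (1 / 2 : F) • (z * v) +
      (1 / 2 : F) • (v * v) := by
    rw [hba]
    conv_lhs => rw [hbe]
    simp only [add_mul, mul_add, smul_mul_assoc, mul_smul_comm, ha.idem, e1, hv, e2, smul_zero]
    match_scalars <;> field_simp <;> ring
  rw [hbba, hba] at hsp
  have key : v * v - (φ * (1 - φ)) • a - φ • z = (1 / 2 * (1 - φ)) • v - z * v := by
    have h5 : (2 : F) • ((φ * φ) • a + (3 / 4 * φ) • v + (1 / 2 : F) • (z * v) +
      (1 / 2 : F) • (v * v)) - (φ • a + (1 / 2 : F) • v) = φ • (φ • a + z + v) := by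
      rw [hsp]
      conv_lhs => rw [hbe]
    linear_combination (norm := skip) h5
    match_scalars <;> field_simp <;> ring
  have h6 := sep h2 ha (c := w - φ * (1 - φ)) (x0 := w0 - φ • z)
    (xh := (1 / 2 * (1 - φ)) • v - z * v)
    (by rw [mul_sub, mul_smul_comm, hw0, hz]; simp)
    (by rw [mul_sub, mul_smul_comm, hv, hzv, smul_sub, smul_comm])
    (by rw [← key, hw]; module)
  have hzv' : z * v = (1 / 2 * (1 - φ)) • v := (sub_eq_zero.1 h6.2.2).symm
  have hvv : v * v = (φ * (1 - φ)) • a + φ • z := by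
    have h7 := key
    rw [h6.2.2] at h7
    rw [sub_sub, sub_eq_zero] at h7
    exact h7
  refine ⟨z, v, hbe, hz, hv, ?_, hvv, hzv'⟩
  have hbb2 : (φ • a + z + v) * (φ • a + z + v) = φ • a + z + v := by
    rw [← hbe]
    exact hbb
  simp only [add_mul, mul_add, smul_mul_assoc, mul_smul_comm, ha.idem, e1, hz, hv, e2, e3, hzv',
    hvv, smul_zero, add_zero, zero_add] at hbb2
  linear_combination (norm := skip) hbb2
  match_scalars <;> field_simp <;> ring

end line

end AxJ
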