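import Pool.Agent.Helper87.AxS.Fro
import Pool.Agent.Helper87.AxS.Base

/-!
The main theorem for all edges with value different from 0 and 1/4.
-/

set_option linter.unusedSectionVars false

namespace AxJ

open Submodule Polynomial

variable {F : Type*} [Field F] {A : Type*} [NonUnitalNonAssocCommRing A] [Module F A]
  [IsScalarTower F A A] [SMulCommClass F A A]

section half
variable [Infinite F] (h2 : (2 : F) ≠ 0) {B : A →ₗ[F] A →ₗ[F] F}
  (hB : ∀ p (hp : IsHalfAxis F p) (h0 : p ≠ 0) (x : A), B p x = fn h2 hp h0 x)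
  (hspan : span F {p : A | IsHalfAxis F p ∧ p ≠ 0} = ⊤)
  {a b : A} (ha : IsHalfAxis F a) (ha0 : a ≠ 0) (hb : IsHalfAxis F b) (hb0 : b ≠ 0)
include hB hspan ha ha0 hb hb0

theorem half_path (hφ : B a b = 1 / 2) : ∃ p, edge B a p ∧ edge B p b := by
  have h44 := ff_ne h2
  have hφ' : fn h2 ha ha0 b = 1 / 2 := by rw [← hB a ha ha0 b, hφ]
  have hl := line_data h2 ha ha0 hb hb0
  rw [hφ'] at hl
  obtain ⟨z, v, hbe, hz, hv, hzz, hvv, hzv⟩ := hl
  have hfro := B_fro h2 hB hspan
  have hsym := B_sym h2 hB hspan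
  have H := hd_of h2 hB hspan ha ha0 hb hb0 hφ hbe hz hv hzv
  have haa : B a a = 1 := by rw [hB a ha ha0, fn_self]
  have hbb : B b b = 1 := by rw [hB b hb hb0, fn_self]
  have haz : B a z = 0 := by rw [hB a ha ha0, fn_zero h2 ha ha0 hz]
  have hav : B a v = 0 := by rw [hB a ha ha0, fn_half h2 ha ha0 hv]
  have hvz : B v z = 0 := H.Bv h2 hz
  have hzz1 : B z z = 1 / 4 := by
    have h := H.Baa'
    simp only [map_smul, LinearMap.smul_apply, smul_eq_mul] at h
    field_simp
    linear_combination h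
  have hba : B b a = 1 / 2 := by rw [hsym, hφ]
  have hbz : B b z = 1 / 4 := by
    rw [hbe]
    simp only [map_add, map_smul, LinearMap.add_apply, LinearMap.smul_apply, smul_eq_mul, haz,
      hzz1, hvz]
    ring
  have hbv : B b v = 1 / 2 := by
    have h : B b ((1 / 2 : F) • a + z + v) = 1 := by rw [← hbe]; exact hbb
    simp only [map_add, map_smul, smul_eq_mul, hba, hbz] at h
    have e : B b v = 1 - 1 / 2 * (1 / 2) - 1 / 4 := by linear_combination h
    rw [e]
    field_simp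
    norm_num
  obtain ⟨t, ht⟩ := exists_t [(X ^ 2 + 4 : F[X]), X ^ 2 - C 12, X ^ 2 - 4, X ^ 2 + 8 * X + 4, X]
    (by
      intro P hP
      simp only [List.mem_cons, List.not_mem_nil, or_false] at hP
      rcases hP with rfl | rfl | rfl | rfl | rfl
      · exact poly_ne (s := 0) (by simpa using h44)
      · exact X_pow_sub_C_ne_zero (by norm_num) _
      · exact poly_ne (s := 0) (by simpa using h44)
      · exact poly_ne (s := 0) (by simpa using h44)
      · exact X_ne_zero)
  simp only [List.mem_cons, List.not_mem_nil, or_false, forall_eq_or_imp, forall_eq, eval_add,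
    eval_sub, eval_pow, eval_X, eval_C, eval_mul, eval_ofNat] at ht
  obtain ⟨t1, t2, t3, t4, t5⟩ := ht
  have eD : 1 + 1 / 2 * (1 - 1 / 2) * t ^ 2 = (t ^ 2 + 4) / 4 := by
    field_simp
    ring
  have hD : 1 + 1 / 2 * (1 - 1 / 2) * t ^ 2 ≠ 0 := by
    rw [eD]
    exact div_ne_zero t1 h44
  obtain ⟨hp, hp0⟩ := solid_half h2 hB hspan ha ha0 hb hb0 hφ hbe hz hv hzz
    (by rw [hvv]) hzv t hD
  rw [eD] at hp hp0
  set p := ((t ^ 2 + 4) / 4)⁻¹ • (a + t • v + (1 / 2 * t ^ 2) • z) with hpdef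
  have hap : B a p = 4 / (t ^ 2 + 4) := by
    rw [hpdef]
    simp only [map_add, map_smul, smul_eq_mul, haa, haz, hav]
    field_simp
    ring
  have hbp : B b p = (t + 2) ^ 2 / (2 * (t ^ 2 + 4)) := by
    rw [hpdef]
    simp only [map_add, map_smul, smul_eq_mul, hba, hbz, hbv]
    field_simp
    ring
  refine ⟨p, ⟨⟨ha, ha0⟩, ⟨hp, hp0⟩, ?_⟩, ⟨⟨hp, hp0⟩, ⟨hb, hb0⟩, ?_⟩⟩
  · rw [hap]
    refine ⟨div_ne_zero h44 t1, ?_, ?_⟩
    · intro h
      apply t2
      field_simp at h
      linear_combination -h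
    · intro h
      apply t3
      field_simp at h
      linear_combination -h
  · rw [hsym, hbp]
    refine ⟨div_ne_zero (pow_ne_zero 2 ?_) (mul_ne_zero h2 t1), ?_, ?_⟩
    · intro h
      apply t3
      have : t = -2 := by linear_combination h
      rw [this]
      ring
    · intro h
      apply t4
      field_simp at h
      apply mul_left_cancel₀ h2
      linear_combination h
    · intro h
      apply t5
      field_simp at h
      apply mul_left_cancel₀ h44
      linear_combination h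

end half

theorem jordan_main2 [Infinite F] (h2 : (2 : F) ≠ 0) {ι : Type*} {a : ι → A}
    (ha : ∀ i, IsHalfAxis F (a i)) (ha0 : ∀ i, a i ≠ 0)
    (hgen : NonUnitalAlgebra.adjoin F (Set.range a) = ⊤) (Γ : SimpleGraph ι)
    (hΓ : Γ.Preconnected)
    (hφ : ∀ i j, Γ.Adj i j → fn h2 (ha i) (ha0 i) (a j) ≠ 0 ∧ 4 * fn h2 (ha i) (ha0 i) (a j) ≠ 1)
    (x y : A) : x * (y * (x * x)) = (x * y) * (x * x) := by
  have hspan := axes_span h2 ha ha0 hgen
  obtain ⟨B, hB⟩ := exists_form h2 hspan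
  have hedge : ∀ i j, Γ.Adj i j → Relation.ReflTransGen (edge B) (a i) (a j) := by
    intro i j h
    obtain ⟨h0, h4⟩ := hφ i j h
    rw [← hB (a i) (ha i) (ha0 i)] at h0 h4
    by_cases ht : 2 * B (a i) (a j) = 1
    · obtain ⟨p, h3, h5⟩ := half_path h2 hB hspan (ha i) (ha0 i) (ha j) (ha0 j)
        (by field_simp; linear_combination ht)
      exact (Relation.ReflTransGen.single h3).trans (Relation.ReflTransGen.single h5)
    · exact Relation.ReflTransGen.single ⟨⟨ha i, ha0 i⟩, ⟨ha j, ha0 j⟩, h0, h4, ht⟩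
  have hpath : ∀ i j, Relation.ReflTransGen (edge B) (a i) (a j) := by
    intro i j
    have h := (SimpleGraph.reachable_iff_reflTransGen i j).1 (hΓ i j)
    exact Relation.ReflTransGen.lift' a (fun i j h => hedge i j h) _ _ h
  exact jordan_core h2 ha ha0 hgen hB hpath x y

open TensorProduct in
theorem jordan_all2 {F : Type*} [Field F] {A : Type*} [NonUnitalNonAssocCommRing A] [Module F A]
    [IsScalarTower F A A] [SMulCommClass F A A] (h2 : (2 : F) ≠ 0) {ι : Type*} {a : ι → A}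
    (ha : ∀ i, IsHalfAxis F (a i)) (ha0 : ∀ i, a i ≠ 0)
    (hgen : NonUnitalAlgebra.adjoin F (Set.range a) = ⊤) (Γ : SimpleGraph ι)
    (hΓ : Γ.Preconnected)
    (hφ : ∀ i j, Γ.Adj i j → ∃ c, IsGram F (a i) (a j) c ∧ c ≠ 0 ∧ 4 * c ≠ 1) (x y : A) :
    x * (y * (x * x)) = (x * y) * (x * x) := by
  let K := RatFunc F
  have : Infinite K := Infinite.of_injective (algebraMap (Polynomial F) (RatFunc F))
    (IsFractionRing.injective _ _)
  have h2K : (2 : K) ≠ 0 := two_ext K h2
  have ha' : ∀ i, IsHalfAxis K ((1 : K) ⊗ₜ[F] a i) := fun i => (ha i).ext K h2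
  have ha0' : ∀ i, (1 : K) ⊗ₜ[F] a i ≠ 0 := fun i h => ha0 i
    (one_inj (F := F) (A := A) K (by simpa using h))
  have hφ' : ∀ i j, Γ.Adj i j → fn h2K (ha' i) (ha0' i) ((1 : K) ⊗ₜ[F] a j) ≠ 0 ∧
      4 * fn h2K (ha' i) (ha0' i) ((1 : K) ⊗ₜ[F] a j) ≠ 1 := by
    intro i j hij
    obtain ⟨c, hc, c0, c4⟩ := hφ i j hij
    rw [fn_gram h2K (ha' i) (ha0' i) (hc.ext K)]
    refine ⟨?_, ?_⟩
    · intro h
      exact c0 ((algebraMap F K).injective (by rw [h, map_zero]))
    · intro h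
      exact c4 ((algebraMap F K).injective (by rw [map_mul, map_ofNat, h, map_one]))
  have h := jordan_main2 (F := K) h2K ha' ha0' (adjoin_ext K hgen) Γ hΓ hφ'
    ((1 : K) ⊗ₜ[F] x) ((1 : K) ⊗ₜ[F] y)
  simp only [one_mul_one] at h
  exact one_inj (F := F) (A := A) K h

end AxJ
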