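import Pool.Agent.Helper87.AxS.Good

/-!
Paths of generic edges.
-/

namespace AxJ

open Submodule Polynomial

variable {F : Type*} [Field F] {A : Type*} [NonUnitalNonAssocCommRing A] [Module F A]
  [IsScalarTower F A A] [SMulCommClass F A A]

/-- The value of a generic edge. -/
def gv (c : F) : Prop := c ≠ 0 ∧ 4 * c ≠ 1 ∧ 2 * c ≠ 1

omit [IsScalarTower F A A] in
theorem exists_t [Infinite F] (L : List F[X]) (h : ∀ P ∈ L, P ≠ 0) :
    ∃ t : F, ∀ P ∈ L, P.eval t ≠ 0 := by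
  have hp : L.prod ≠ 0 := by
    apply List.prod_ne_zero
    intro h0
    exact h 0 h0 rfl
  obtain ⟨t, ht⟩ : ∃ t : F, L.prod.eval t ≠ 0 := by
    by_contra hcon
    push Not at hcon
    exact hp (Polynomial.funext fun r => by rw [hcon r, eval_zero])
  refine ⟨t, fun P hP h0 => ht ?_⟩
  rw [Polynomial.eval_list_prod]
  apply List.prod_eq_zero
  rw [List.mem_map]
  exact ⟨P, hP, h0⟩

theorem poly_ne {P : F[X]} {s : F} (h : P.eval s ≠ 0) : P ≠ 0 := by
  rintro rfl
  exact h eval_zero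

section path
variable [Infinite F] (h2 : (2 : F) ≠ 0) {B : A →ₗ[F] A →ₗ[F] F}
  (hB : ∀ p (hp : IsHalfAxis F p) (h0 : p ≠ 0) (x : A), B p x = fn h2 hp h0 x)

/-- The denominator. -/
noncomputable def dP (φ : F) : F[X] := 1 + C (φ * (1 - φ)) * X ^ 2

/-- A functional on the cone. -/
noncomputable def fP (f : A →ₗ[F] F) (φ : F) (c v z : A) : F[X] :=
  C (f c) + C (f v) * X + C (φ * f z) * X ^ 2

theorem dP_eval (φ t : F) : (dP φ).eval t = 1 + φ * (1 - φ) * t ^ 2 := by
  simp [dP]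

theorem fP_eval (f : A →ₗ[F] F) (φ : F) (c v z : A) (t : F) :
    (fP f φ c v z).eval t = f (c + t • v + (φ * t ^ 2) • z) := by
  simp [fP]
  ring

include hB

/-- Points of the conic through two axes: we may avoid finitely many conditions. -/
theorem curve {c x : A} (hc : IsHalfAxis F c) (hc0 : c ≠ 0) (hx : IsHalfAxis F x) (hx0 : x ≠ 0)
    (hf : 4 * B c x ≠ 1) (ht : 2 * B c x ≠ 1) :
    ∃ z v : A, x = B c x • c + z + v ∧ c * z = 0 ∧ c * v = (1 / 2 : F) • v ∧
      ∀ t, (dP (B c x)).eval t ≠ 0 →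
      IsHalfAxis F (((dP (B c x)).eval t)⁻¹ • (c + t • v + (B c x * t ^ 2) • z)) ∧
      ((dP (B c x)).eval t)⁻¹ • (c + t • v + (B c x * t ^ 2) • z) ≠ 0 := by
  have h := line_data h2 hc hc0 hx hx0
  rw [← hB c hc hc0 x] at h
  obtain ⟨z, v, hxe, hz, hv, hzz, hvv, hzv⟩ := h
  refine ⟨z, v, hxe, hz, hv, fun t hD => ?_⟩
  rw [dP_eval] at hD ⊢
  exact solid h2 hB hc hc0 hx hx0 rfl hf ht hxe hz hv hzz hvv hzv t hD

/-- The key step for paths. -/
theorem step {a b c x : A} (hc : IsHalfAxis F c) (hc0 : c ≠ 0) (hx : IsHalfAxis F x)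
    (hx0 : x ≠ 0) (hcx : gv (B c x)) (hbc : gv (B b c)) (hax : 4 * B a x ≠ 1)
    (hax' : 2 * B a x ≠ 1) :
    ∃ y, IsHalfAxis F y ∧ y ≠ 0 ∧ gv (B b y) ∧ 4 * B a y ≠ 1 ∧ 2 * B a y ≠ 1 := by
  obtain ⟨z, v, hxe, hz, hv, hy⟩ := curve h2 hB hc hc0 hx hx0 hcx.2.1 hcx.2.2
  set φ := B c x with hφ
  obtain ⟨t, ht⟩ := exists_t [dP φ, fP (B b) φ c v z, 4 * fP (B b) φ c v z - dP φ,
    2 * fP (B b) φ c v z - dP φ, 4 * fP (B a) φ c v z - dP φ, 2 * fP (B a) φ c v z - dP φ] (by
      intro P hP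
      have hd0 : (dP φ).eval 0 = 1 := by rw [dP_eval]; ring
      have hb0 : (fP (B b) φ c v z).eval 0 = B b c := by
        rw [fP_eval]
        congr 1
        module
      have hφ0 : φ ≠ 0 := hcx.1
      have hd1 : (dP φ).eval φ⁻¹ = φ⁻¹ := by
        rw [dP_eval]
        field_simp
        ring
      have ha1 : (fP (B a) φ c v z).eval φ⁻¹ = φ⁻¹ * B a x := by
        have e : φ⁻¹ * B a x = B a (φ⁻¹ • x) := by rw [map_smul, smul_eq_mul]
        rw [fP_eval, e, hxe]
        congr 1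
        match_scalars <;> field_simp
      simp only [List.mem_cons, List.not_mem_nil, or_false] at hP
      rcases hP with rfl | rfl | rfl | rfl | rfl | rfl
      · exact poly_ne (s := 0) (by rw [hd0]; exact one_ne_zero)
      · exact poly_ne (s := 0) (by rw [hb0]; exact hbc.1)
      · refine poly_ne (s := 0) ?_
        rw [eval_sub, eval_mul, hb0, hd0]
        have := hbc.2.1
        simpa using sub_ne_zero.2 this
      · refine poly_ne (s := 0) ?_
        rw [eval_sub, eval_mul, hb0, hd0]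
        have := hbc.2.2
        simpa using sub_ne_zero.2 this
      · refine poly_ne (s := φ⁻¹) ?_
        rw [eval_sub, eval_mul, ha1, hd1]
        have e : eval φ⁻¹ (4 : F[X]) * (φ⁻¹ * B a x) - φ⁻¹ = φ⁻¹ * (4 * B a x - 1) := by
          simp
          ring
        rw [e]
        exact mul_ne_zero (inv_ne_zero hφ0) (sub_ne_zero.2 hax)
      · refine poly_ne (s := φ⁻¹) ?_
        rw [eval_sub, eval_mul, ha1, hd1]
        have e : eval φ⁻¹ (2 : F[X]) * (φ⁻¹ * B a x) - φ⁻¹ = φ⁻¹ * (2 * B a x - 1) := by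
          simp
          ring
        rw [e]
        exact mul_ne_zero (inv_ne_zero hφ0) (sub_ne_zero.2 hax'))
  simp only [List.mem_cons, List.not_mem_nil, or_false, forall_eq_or_imp, forall_eq] at ht
  obtain ⟨t1, t2, t3, t4, t5, t6⟩ := ht
  obtain ⟨h1, h1'⟩ := hy t t1
  have hm : ∀ w, B w (((dP φ).eval t)⁻¹ • (c + t • v + (φ * t ^ 2) • z)) =
      ((dP φ).eval t)⁻¹ * (fP (B w) φ c v z).eval t := by
    intro w
    rw [map_smul, fP_eval, smul_eq_mul]
  simp only [eval_sub, eval_mul] at t3 t4 t5 t6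
  have e4 : eval t (4 : F[X]) = 4 := by simp
  have e2 : eval t (2 : F[X]) = 2 := by simp
  rw [e4] at t3 t5
  rw [e2] at t4 t6
  refine ⟨_, h1, h1', ⟨?_, ?_, ?_⟩, ?_, ?_⟩
  · rw [hm]
    exact mul_ne_zero (inv_ne_zero t1) t2
  · rw [hm]
    intro h
    apply t3
    field_simp at h
    rw [h]
    ring
  · rw [hm]
    intro h
    apply t4
    field_simp at h
    rw [h]
    ring
  · rw [hm]
    intro h
    apply t5
    field_simp at h
    rw [h]
    ring
  · rw [hm]
    intro h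
    apply t6
    field_simp at h
    rw [h]
    ring

end path

end AxJ
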