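import Pool.Agent.Helper87.AxS.Form

/-!
All points of the conic through two axes are axes.
-/

namespace AxJ

open Submodule

variable {F : Type*} [Field F] {A : Type*} [NonUnitalNonAssocCommRing A] [Module F A]
  [IsScalarTower F A A] [SMulCommClass F A A]

/-- The primitivity map. -/
def f2 (B : A →ₗ[F] A →ₗ[F] F) (q : A) : A →ₗ[F] A →ₗ[F] A :=
  LinearMap.mk₂ F (fun x y => x * (y * q) + y * (x * q) - (x * y) * q - (1 / 2 * B x q) • y -
      (1 / 2 * B y q) • x)
    (by
      intro x x' y
      simp only [add_mul, mul_add, map_add, LinearMap.add_apply]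
      match_scalars <;> ring)
    (by
      intro c x y
      simp only [smul_mul_assoc, mul_smul_comm, map_smul, LinearMap.smul_apply, smul_eq_mul]
      match_scalars <;> ring)
    (by
      intro x y y'
      simp only [add_mul, mul_add, map_add, LinearMap.add_apply]
      match_scalars <;> ring)
    (by
      intro c x y
      simp only [smul_mul_assoc, mul_smul_comm, map_smul, LinearMap.smul_apply, smul_eq_mul]
      match_scalars <;> ring)

theorem f2_apply (B : A →ₗ[F] A →ₗ[F] F) (q x y : A) : f2 B q x y =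
    x * (y * q) + y * (x * q) - (x * y) * q - (1 / 2 * B x q) • y - (1 / 2 * B y q) • x := rfl

section solid
variable (h2 : (2 : F) ≠ 0) {B : A →ₗ[F] A →ₗ[F] F}
  (hB : ∀ p (hp : IsHalfAxis F p) (h0 : p ≠ 0) (x : A), B p x = fn h2 hp h0 x)
  {a b : A} (ha : IsHalfAxis F a) (ha0 : a ≠ 0) (hb : IsHalfAxis F b) (hb0 : b ≠ 0)

theorem fn_half {v : A} (hv : a * v = (1 / 2 : F) • v) : fn h2 ha ha0 v = 0 :=
  fn_gram h2 ha ha0 ⟨0, v, by simp, by simp, hv⟩

include hB

theorem quad_all (x : A) (h2q : ∀ q, f2 B q x x = 0) (h3 : ∀ p q, jj p q x x = 0)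
    (h4 : ∀ p q, jj x x p q = 0) {D : F} (hD : D ≠ 0) (hx : x * x = D • x) :
    IsHalfAxis F (D⁻¹ • x) := by
  refine axis_of h2 ?_ (fun y => B (D⁻¹ • x) y) ?_ ?_ ?_
  · rw [smul_mul_assoc, mul_smul_comm, hx, smul_smul, smul_smul]
    congr 1
    field_simp
  · intro y
    have h := h2q y
    rw [f2_apply, hx] at h
    simp only [smul_mul_assoc, mul_smul_comm, map_smul, LinearMap.smul_apply, smul_eq_mul] at h ⊢
    linear_combination (norm := skip) (D⁻¹ * D⁻¹) • h
    match_scalars <;> field_simp <;> ring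
  · intro p q
    have h := h3 p q
    rw [← f3_apply (F := F)] at h ⊢
    rw [map_smul, LinearMap.map_smul₂, h, smul_zero, smul_zero]
  · intro p q
    have h := h4 p q
    rw [← f4_apply (F := F)] at h ⊢
    rw [map_smul, LinearMap.map_smul₂, h, smul_zero, smul_zero]

include ha ha0 hb hb0 in
theorem solid {φ : F} (hφ : B a b = φ) (hf : 4 * φ ≠ 1) (ht : 2 * φ ≠ 1) {z v : A}
    (hbe : b = φ • a + z + v) (hz : a * z = 0) (hv : a * v = (1 / 2 : F) • v)
    (hzz : z * z = (1 - φ) • z) (hvv : v * v = (φ * (1 - φ)) • a + φ • z)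
    (hzv : z * v = (1 / 2 * (1 - φ)) • v) (t : F) (hD : 1 + φ * (1 - φ) * t ^ 2 ≠ 0) :
    IsHalfAxis F ((1 + φ * (1 - φ) * t ^ 2)⁻¹ • (a + t • v + (φ * t ^ 2) • z)) ∧
      (1 + φ * (1 - φ) * t ^ 2)⁻¹ • (a + t • v + (φ * t ^ 2) • z) ≠ 0 := by
  have hφ' : fn h2 ha ha0 b = φ := by rw [← hB a ha ha0 b, hφ]
  constructor
  · apply quad_all h2 hB _ _ _ _ hD
    · have e1 : z * a = 0 := by rw [mul_comm]; exact hz
      have e2 : v * a = (1 / 2 : F) • v := by rw [mul_comm]; exact hv
      have e3 : v * z = z * v := mul_comm _ _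
      simp only [add_mul, mul_add, smul_mul_assoc, mul_smul_comm, ha.idem, e1, hz, hv, e2, e3, hzv,
        hvv, hzz, smul_zero, add_zero, zero_add]
      match_scalars <;> field_simp <;> ring
    · intro q
      refine quad_cone h2 ha ha0 hb hb0 (f2 B q) ?_ ?_ hφ' hf ht hbe hz hv t
      · intro x y
        rw [f2_apply, f2_apply, mul_comm y x]
        abel
      · intro p hp hp0
        rw [f2_apply, hB p hp hp0, hp.idem]
        have h := fn_spec h2 hp hp0 q
        linear_combination (norm := skip) h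
        match_scalars <;> field_simp <;> ring
    · intro p q
      have h := quad_cone h2 ha ha0 hb hb0 (f3 F p q + (f3 F p q).flip) ?_ ?_ hφ' hf ht hbe hz hv t
      · simp only [LinearMap.add_apply, LinearMap.flip_apply, f3_apply] at h
        rw [← two_smul F] at h
        exact (smul_eq_zero.1 h).resolve_left h2
      · intro x y
        simp only [LinearMap.add_apply, LinearMap.flip_apply]
        rw [add_comm]
      · intro r hr hr0
        simp only [LinearMap.add_apply, LinearMap.flip_apply, f3_apply, jj_pa h2 hr hr0]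
        simp
    · intro p q
      have h := quad_cone h2 ha ha0 hb hb0 (f4 F p q) ?_ ?_ hφ' hf ht hbe hz hv t
      · exact h
      · intro x y
        exact jj_comm12 x y p q
      · intro r hr hr0
        exact jj_aa h2 hr hr0 p q
  · intro h
    have h5 := congrArg (B a) h
    rw [map_zero, map_smul, map_add, map_add, map_smul, map_smul, hB a ha ha0, hB a ha ha0,
      hB a ha ha0, fn_self, fn_zero h2 ha ha0 hz, fn_half h2 ha ha0 hv] at h5
    simp only [mul_zero, add_zero, smul_eq_mul, mul_one] at h5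
    exact inv_ne_zero hD h5

end solid

end AxJ
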