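import Pool.Agent.Helper87.AxS.Line

/-!
A quadratic map which vanishes on all axes vanishes on the conic through two axes.
-/

namespace AxJ

open Submodule

variable {F : Type*} [Field F] {A : Type*} [NonUnitalNonAssocCommRing A] [Module F A]
  [IsScalarTower F A A] [SMulCommClass F A A]

section tau
variable (h2 : (2 : F) ≠ 0) {b : A} (hb : IsHalfAxis F b) (hb0 : b ≠ 0)

theorem tau_axis {x : A} (hx : IsHalfAxis F x) : IsHalfAxis F (tauE h2 hb hb0 x) :=
  axis_map _ (tauE_mul h2 hb hb0) hx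

theorem tau_ne {x : A} (hx : x ≠ 0) : tauE h2 hb hb0 x ≠ 0 := by
  rw [Ne, LinearEquiv.map_eq_zero_iff]
  exact hx

end tau

section vanish
variable (h2 : (2 : F) ≠ 0) {a b : A} (ha : IsHalfAxis F a) (ha0 : a ≠ 0)
  (hb : IsHalfAxis F b) (hb0 : b ≠ 0)
include hb hb0

/-- Four axes on the conic. -/
theorem four_axes {φ : F} (hφ : fn h2 ha ha0 b = φ) {z v : A}
    (hbe : b = φ • a + z + v) (hz : a * z = 0) (hv : a * v = (1 / 2 : F) • v) (P : A → Prop)
    (hP : ∀ p, IsHalfAxis F p → p ≠ 0 → P p) :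
    P (φ • a + z + v) ∧ P (φ • a + z - v) ∧
    P (((1 - 2 * φ) ^ 2) • a + (4 * φ) • z + (4 * φ - 2) • v) ∧
    P (((1 - 2 * φ) ^ 2) • a + (4 * φ) • z - (4 * φ - 2) • v) := by
  have hs := fn_symm h2 ha ha0 hb hb0
  rw [hφ] at hs
  have e1 : z * a = 0 := by rw [mul_comm]; exact hz
  have e2 : v * a = (1 / 2 : F) • v := by rw [mul_comm]; exact hv
  have h1 : tauE h2 ha ha0 (φ • a + z + v) = φ • a + z - v := tauL_parts h2 ha ha0 hz hv
  have h3 : tauE h2 hb hb0 a =
      ((1 - 2 * φ) ^ 2) • a + (4 * φ) • z + (4 * φ - 2) • v := by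
    rw [tauE_apply, ← hs]
    have hba : b * a = φ • a + (1 / 2 : F) • v := by
      conv_lhs => rw [hbe]
      simp only [add_mul, smul_mul_assoc, ha.idem, e1, e2, add_zero]
    rw [hba, hbe]
    match_scalars <;> field_simp <;> ring
  have h4 : tauE h2 ha ha0 (((1 - 2 * φ) ^ 2) • a + (4 * φ) • z + (4 * φ - 2) • v) =
      ((1 - 2 * φ) ^ 2) • a + (4 * φ) • z - (4 * φ - 2) • v :=
    tauL_parts h2 ha ha0 (by rw [mul_smul_comm, hz, smul_zero])
      (by rw [mul_smul_comm, hv, smul_comm])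
  refine ⟨?_, ?_, ?_, ?_⟩
  · rw [← hbe]
    exact hP b hb hb0
  · rw [← h1, ← hbe]
    exact hP _ (tau_axis h2 ha ha0 hb) (tau_ne h2 ha ha0 hb0)
  · rw [← h3]
    exact hP _ (tau_axis h2 hb hb0 ha) (tau_ne h2 hb hb0 ha0)
  · rw [← h4, ← h3]
    exact hP _ (tau_axis h2 ha ha0 (tau_axis h2 hb hb0 ha))
      (tau_ne h2 ha ha0 (tau_ne h2 hb hb0 ha0))

theorem quad_vanish (Q : A →ₗ[F] A →ₗ[F] A) (hQs : ∀ x y, Q x y = Q y x)
    (hQ : ∀ p, IsHalfAxis F p → p ≠ 0 → Q p p = 0) {φ : F} (hφ : fn h2 ha ha0 b = φ)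
    (hf : 4 * φ ≠ 1) (ht : 2 * φ ≠ 1) {z v : A}
    (hbe : b = φ • a + z + v) (hz : a * z = 0) (hv : a * v = (1 / 2 : F) • v) :
    Q a v = 0 ∧ Q z v = 0 ∧ Q z z = 0 ∧ Q v v = -((2 * φ) • Q a z) := by
  obtain ⟨k1, k2, k3, k4⟩ := four_axes h2 ha ha0 hb hb0 hφ hbe hz hv (fun p => Q p p = 0) hQ
  have haa := hQ a ha ha0
  have f4 := ff_ne h2
  have s1 := hQs v a
  have s2 := hQs z a
  have s3 := hQs v z
  simp only [map_add, map_sub, map_smul, LinearMap.add_apply, LinearMap.sub_apply,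
    LinearMap.smul_apply, haa, s1, s2, s3, smul_zero, smul_add, smul_sub, smul_smul,
    zero_add] at k1 k2 k3 k4
  have x1 : (4 * ((4 * φ - 2) * (1 - 4 * φ))) • Q a v = 0 := by
    linear_combination (norm := skip) k3 - k4 - ((4 * φ - 2) * (4 * φ)) • (k1 - k2)
    match_scalars <;> ring
  have x2 : Q a v = 0 := by
    refine (smul_eq_zero.1 x1).resolve_left ?_
    refine mul_ne_zero f4 (mul_ne_zero ?_ ?_)
    · intro h
      apply ht
      have : (2 : F) * (2 * φ - 1) = 0 := by linear_combination h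
      exact sub_eq_zero.1 ((mul_eq_zero.1 this).resolve_left h2)
    · intro h
      exact hf (sub_eq_zero.1 h).symm
  have x3 : (4 : F) • Q z v = 0 := by
    have : (4 : F) • (φ • Q a v + Q z v) = 0 := by
      linear_combination (norm := skip) k1 - k2
      match_scalars <;> ring
    rwa [x2, smul_zero, zero_add] at this
  have x4 : Q z v = 0 := (smul_eq_zero.1 x3).resolve_left f4
  have x5 : (8 * (4 * φ - 1)) • Q z z = 0 := by
    linear_combination (norm := skip) k3 + k4 - ((4 * φ - 2) ^ 2) • (k1 + k2)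
    match_scalars <;> ring
  have x6 : Q z z = 0 := by
    refine (smul_eq_zero.1 x5).resolve_left (mul_ne_zero ?_ (sub_ne_zero.2 hf))
    have : (8 : F) = 4 * 2 := by norm_num
    rw [this]
    exact mul_ne_zero f4 h2
  have x7 : (2 : F) • (Q v v + (2 * φ) • Q a z) = 0 := by
    have : (2 : F) • (Q v v + (2 * φ) • Q a z) + (2 : F) • Q z z = 0 := by
      linear_combination (norm := skip) k1 + k2
      match_scalars <;> ring
    rwa [x6, smul_zero, add_zero] at this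
  refine ⟨x2, x4, x6, ?_⟩
  rw [eq_neg_iff_add_eq_zero]
  exact (smul_eq_zero.1 x7).resolve_left h2

/-- A quadratic map that vanishes on all axes vanishes at all points of the cone. -/
theorem quad_cone (Q : A →ₗ[F] A →ₗ[F] A) (hQs : ∀ x y, Q x y = Q y x)
    (hQ : ∀ p, IsHalfAxis F p → p ≠ 0 → Q p p = 0) {φ : F} (hφ : fn h2 ha ha0 b = φ)
    (hf : 4 * φ ≠ 1) (ht : 2 * φ ≠ 1) {z v : A}
    (hbe : b = φ • a + z + v) (hz : a * z = 0) (hv : a * v = (1 / 2 : F) • v) (t : F) :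
    Q (a + t • v + (φ * t ^ 2) • z) (a + t • v + (φ * t ^ 2) • z) = 0 := by
  obtain ⟨x1, x2, x3, x4⟩ := quad_vanish h2 ha ha0 hb hb0 Q hQs hQ hφ hf ht hbe hz hv
  have haa := hQ a ha ha0
  have s1 := hQs v a
  have s2 := hQs z a
  have s3 := hQs v z
  simp only [map_add, map_smul, LinearMap.add_apply, LinearMap.smul_apply, haa, s1, s2, s3, x1, x2,
    x3, x4, smul_zero, smul_smul, zero_add, add_zero]
  match_scalars <;> ring

end vanish

end AxJ
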